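import Pool.Agent.X249.AS.Gad

/-!
# From an exact cover to a Hamiltonian path
-/

set_option autoImplicit false

namespace Pool.Agent.X249.AS

open Pool.Agent.NPC Pool.Agent.NPC.H632

variable {F : List (ℕ × ℕ × ℕ)} {Q : ℕ}

theorem hps_of_xc (h : Pr F Q) (hx : XC F (List.range Q)) :
    HPS (Ws F Q) (P1 F Q) (P2 F) (0, 0, 0) (T0 F) := by
  classical
  obtain ⟨C, hC, hperm⟩ := hx
  obtain ⟨p1, p2, p3⟩ := h
  have hlt : ∀ u i, inc F u i → u < Q := fun u i => inc_lt ⟨p1, p2, p3⟩
  have hel : ∀ u i, i < F.length → (u ∈ el (tr F i) ↔ inc F u i) := by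
    intro u i hi
    unfold el inc
    simp only [List.mem_cons, List.not_mem_nil, or_false]
    exact ⟨fun h => ⟨hi, h⟩, fun h => h.2⟩
  let ch : ℕ → Prop := fun i => tr F i ∈ C ∧ ∀ j < i, tr F j ≠ tr F i
  let us : ℕ → ℕ → Prop := fun u i => inc F u i ∧ ch i
  have hnd : (C.flatMap el).Nodup := hperm.nodup_iff.2 List.nodup_range
  have ex : ∀ u, u < Q → ∃ i, us u i := by
    intro u hu
    obtain ⟨t, ht, hut⟩ := List.mem_flatMap.1 (hperm.mem_iff.2 (List.mem_range.2 hu))
    obtain ⟨i, hi, hi'⟩ := List.getElem_of_mem (hC t ht)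
    have hti : tr F i = t := by
      unfold tr
      rw [List.getD_eq_getElem _ _ hi, hi']
    have hex : ∃ j, tr F j = t := ⟨i, hti⟩
    have h1 := Nat.find_spec hex
    have h2 : Nat.find hex ≤ i := Nat.find_min' hex hti
    refine ⟨Nat.find hex, (hel u _ (by omega)).1 (by rw [h1]; exact hut), by rw [h1]; exact ht, ?_⟩
    intro j hj
    rw [h1]
    exact Nat.find_min hex hj
  have un : ∀ u i j, us u i → us u j → i = j := by
    rintro u i j ⟨h1, h2, h3⟩ ⟨g1, g2, g3⟩
    have hpw := (List.nodup_flatMap.1 hnd).2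
    have key : tr F i = tr F j := by
      by_contra hne
      haveI : Std.Symm (Function.onFun List.Disjoint (el : ℕ × ℕ × ℕ → List ℕ)) := ⟨fun a b hab => List.Disjoint.symm hab⟩
      have := List.Pairwise.forall hpw h2 g2 hne
      exact this ((hel u i h1.1).2 h1) ((hel u j g1.1).2 g1)
    rcases lt_trichotomy i j with h4 | h4 | h4
    · exact absurd key (g3 i h4)
    · exact h4
    · exact absurd key.symm (h3 j h4)
  let bP : Cd → Prop := fun w =>
    if w.1 = 1 then (w.2.2 = 0 ∨ ¬ us w.2.1 (w.2.2 - 1))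
    else if w.1 = 2 then (w.2.2 = F.length ∨ ¬ us w.2.1 w.2.2)
    else if w.1 = 6 then ch w.2.1
    else if w.1 = 7 ∨ w.1 = 8 ∨ w.1 = 9 then us w.2.1 w.2.2
    else True
  let π : Cd → Cd := fun w => if bP w then P1 F Q w else P2 F w
  have yes : ∀ w, bP w → π w = P1 F Q w := fun w h => if_pos h
  have no : ∀ w, ¬ bP w → π w = P2 F w := fun w h => if_neg h
  -- membership
  have mM : ∀ u i, u < Q → i ≤ F.length → ((1, u, i) : Cd) ∈ Ws F Q := fun u i h1 h2 => by
    rw [mem_Ws]; omega
  have mC : ∀ u i, u < Q → i ≤ F.length → ((2, u, i) : Cd) ∈ Ws F Q := fun u i h1 h2 => by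
    rw [mem_Ws]; omega
  have mX : ∀ u, u < Q → ((3, u, 0) : Cd) ∈ Ws F Q := fun u h1 => by
    rw [mem_Ws]; omega
  have mK : ∀ u, u < Q → ((4, u, 0) : Cd) ∈ Ws F Q := fun u h1 => by
    rw [mem_Ws]; omega
  have mA : ∀ i, i < F.length → ((5, i, 0) : Cd) ∈ Ws F Q := fun u h1 => by
    rw [mem_Ws]; omega
  have mB : ∀ i, i < F.length → ((6, i, 0) : Cd) ∈ Ws F Q := fun u h1 => by
    rw [mem_Ws]; omega
  have mp : ∀ u i, inc F u i → ((7, u, i) : Cd) ∈ Ws F Q := fun u i h1 => by
    rw [mem_Ws]
    right; right; right; right; right; right; left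
    exact ⟨rfl, hlt u i h1, h1⟩
  have mq : ∀ u i, inc F u i → ((8, u, i) : Cd) ∈ Ws F Q := fun u i h1 => by
    rw [mem_Ws]
    right; right; right; right; right; right; right; left
    exact ⟨rfl, hlt u i h1, h1⟩
  have mr : ∀ u i, inc F u i → ((9, u, i) : Cd) ∈ Ws F Q := fun u i h1 => by
    rw [mem_Ws]
    right; right; right; right; right; right; right; right
    exact ⟨rfl, hlt u i h1, h1⟩
  -- values
  have v10 : π (1, 0, 0) = (0, 0, 0) := by
    rw [yes _ (by simp [bP])]; simp [P1]
  have v1s : ∀ u, π (1, u + 1, 0) = (3, u, 0) := by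
    intro u
    rw [yes _ (by simp [bP])]; simp [P1]
  have v1n : ∀ u i, ¬ us u i → π (1, u, i + 1) = (1, u, i) := by
    intro u i h1
    rw [yes _ (by simp only [bP, if_true]; exact Or.inr (by simpa using h1))]; simp [P1]
  have v1y : ∀ u i, us u i → π (1, u, i + 1) = (2, u, i + 1) := by
    intro u i h1
    rw [no _ (by simp only [bP, if_true]; simpa using h1)]
    simp [P2, h1.1]
  have v2M : ∀ u, π (2, u, F.length) = (4, u, 0) := by
    intro u
    rw [yes _ (by simp [bP])]; simp [P1]
  have v2n : ∀ u i, i < F.length → ¬ us u i → π (2, u, i) = (2, u, i + 1) := by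
    intro u i hi h1
    rw [yes _ (by simp only [bP]; norm_num; exact Or.inr h1)]; simp [P1, hi.ne]
  have v2y : ∀ u i, us u i → π (2, u, i) = (9, u, i) := by
    intro u i h1
    have hi := h1.1.1
    rw [no _ (by simp only [bP]; norm_num; exact ⟨hi.ne, h1⟩)]
    simp [P2, h1.1, hi.ne]
  have v3 : ∀ u, π (3, u, 0) = (1, u, F.length) := by
    intro u
    rw [yes _ (by simp [bP])]; simp [P1]
  have v4 : ∀ u, π (4, u, 0) = (2, u, 0) := by
    intro u
    rw [yes _ (by simp [bP])]; simp [P1]
  have v50 : π (5, 0, 0) = (3, Q - 1, 0) := by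
    rw [yes _ (by simp [bP])]; simp [P1]
  have v5s : ∀ i, π (5, i + 1, 0) = (6, i, 0) := by
    intro i
    rw [yes _ (by simp [bP])]; simp [P1]
  have v6y : ∀ i, ch i → π (6, i, 0) = (5, i, 0) := by
    intro i h1
    rw [yes _ (by simp only [bP]; norm_num; exact h1)]; simp [P1]
  have v6n : ∀ i, ¬ ch i → π (6, i, 0) = (7, (tr F i).2.2, i) := by
    intro i h1
    rw [no _ (by simp only [bP]; norm_num; exact h1)]; simp [P2]
  have v7y : ∀ u i, us u i → π (7, u, i) = (1, u, i) := by
    intro u i h1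
    rw [yes _ (by simp only [bP]; norm_num; exact h1)]; simp [P1]
  have v7n : ∀ u i, ¬ us u i → π (7, u, i) = (8, u, i) := by
    intro u i h1
    rw [no _ (by simp only [bP]; norm_num; exact h1)]; simp [P2]
  have v8y : ∀ u i, us u i → π (8, u, i) = (7, u, i) := by
    intro u i h1
    rw [yes _ (by simp only [bP]; norm_num; exact h1)]; simp [P1]
  have v8n : ∀ u i, ¬ us u i → π (8, u, i) = (9, u, i) := by
    intro u i h1
    rw [no _ (by simp only [bP]; norm_num; exact h1)]; simp [P2]
  have v9y : ∀ u i, us u i → π (9, u, i) = (8, u, i) := by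
    intro u i h1
    rw [yes _ (by simp only [bP]; norm_num; exact h1)]; simp [P1]
  have v9n : ∀ u i, ¬ us u i → π (9, u, i) = P2 F (9, u, i) := by
    intro u i h1
    rw [no _ (by simp only [bP]; norm_num; exact h1)]
  refine ⟨π, ?_, ?_⟩
  · intro w _
    by_cases hb : bP w
    · exact Or.inl (yes w hb)
    · exact Or.inr (no w hb)
  let R : Cd → Cd → Prop := fun a b => b ∈ Ws F Q ∧ π b = a
  have st : ∀ {a b : Cd}, b ∈ Ws F Q → π b = a → Relation.ReflTransGen R a b :=
    fun h1 h2 => Relation.ReflTransGen.single ⟨h1, h2⟩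
  have segM : ∀ u, u < Q → ∀ i j, i ≤ j → j ≤ F.length → (∀ l, i ≤ l → l < j → ¬ us u l) →
      Relation.ReflTransGen R (1, u, i) (1, u, j) := by
    intro u hu i j hij
    induction j, hij using Nat.le_induction with
    | base => exact fun _ _ => Relation.ReflTransGen.refl
    | succ j hij ih =>
      intro h1 h2
      exact (ih (by omega) (fun l h3 h4 => h2 l h3 (by omega))).trans
        (st (mM u _ hu h1) (v1n u j (h2 j hij (by omega))))
  have segC : ∀ u, u < Q → ∀ i j, i ≤ j → j ≤ F.length → (∀ l, i ≤ l → l < j → ¬ us u l) →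
      Relation.ReflTransGen R (2, u, j) (2, u, i) := by
    intro u hu i j hij
    induction j, hij using Nat.le_induction with
    | base => exact fun _ _ => Relation.ReflTransGen.refl
    | succ j hij ih =>
      intro h1 h2
      exact (st (mC u _ hu (by omega)) (v2n u j (by omega) (h2 j hij (by omega)))).trans
        (ih (by omega) (fun l h3 h4 => h2 l h3 (by omega)))
  -- the gadget of an element
  have gad : ∀ u, u < Q →
      (∀ i ≤ F.length, Relation.ReflTransGen R (1, u, 0) (1, u, i) ∧
        Relation.ReflTransGen R (1, u, i) (3, u, 0)) ∧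
      (∀ i ≤ F.length, Relation.ReflTransGen R (1, u, 0) (2, u, i) ∧
        Relation.ReflTransGen R (2, u, i) (3, u, 0)) ∧
      (Relation.ReflTransGen R (1, u, 0) (4, u, 0) ∧ Relation.ReflTransGen R (4, u, 0) (3, u, 0)) ∧
      (∀ i, us u i → ∀ k, (k = 7 ∨ k = 8 ∨ k = 9) →
        Relation.ReflTransGen R (1, u, 0) (k, u, i) ∧
        Relation.ReflTransGen R (k, u, i) (3, u, 0)) := by
    intro u hu
    obtain ⟨g, hg⟩ := ex u hu
    have hgM : g < F.length := hg.1.1
    have hng : ∀ l, l ≠ g → ¬ us u l := fun l hl h => hl (un u l g h hg)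
    have e1 : Relation.ReflTransGen R (1, u, 0) (1, u, g) :=
      segM u hu 0 g (by omega) (by omega) (fun l _ h => hng l (by omega))
    have s7 : Relation.ReflTransGen R (1, u, g) (7, u, g) := st (mp u g hg.1) (v7y u g hg)
    have s8 : Relation.ReflTransGen R (7, u, g) (8, u, g) := st (mq u g hg.1) (v8y u g hg)
    have s9 : Relation.ReflTransGen R (8, u, g) (9, u, g) := st (mr u g hg.1) (v9y u g hg)
    have s2 : Relation.ReflTransGen R (9, u, g) (2, u, g) :=
      st (mC u g hu (by omega)) (v2y u g hg)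
    have e3 : Relation.ReflTransGen R (2, u, g) (2, u, 0) :=
      segC u hu 0 g (by omega) (by omega) (fun l _ h => hng l (by omega))
    have s4 : Relation.ReflTransGen R (2, u, 0) (4, u, 0) := st (mK u hu) (v4 u)
    have s5 : Relation.ReflTransGen R (4, u, 0) (2, u, F.length) :=
      st (mC u _ hu le_rfl) (v2M u)
    have e5 : Relation.ReflTransGen R (2, u, F.length) (2, u, g + 1) :=
      segC u hu (g + 1) F.length hgM le_rfl (fun l h _ => hng l (by omega))
    have s6 : Relation.ReflTransGen R (2, u, g + 1) (1, u, g + 1) :=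
      st (mM u _ hu hgM) (v1y u g hg)
    have e7 : Relation.ReflTransGen R (1, u, g + 1) (1, u, F.length) :=
      segM u hu (g + 1) F.length hgM le_rfl (fun l h _ => hng l (by omega))
    have s3 : Relation.ReflTransGen R (1, u, F.length) (3, u, 0) := st (mX u hu) (v3 u)
    -- to the end
    have t1 := e7.trans s3
    have t2 := s6.trans t1
    have t3 := e5.trans t2
    have t4 := s5.trans t3
    have t5 := s4.trans t4
    have t6 := e3.trans t5
    have t7 := s2.trans t6
    have t8 := s9.trans t7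
    have t9 := s8.trans t8
    have t10 := s7.trans t9
    -- from the start
    have f1 := e1.trans s7
    have f2 := f1.trans s8
    have f3 := f2.trans s9
    have f4 := f3.trans s2
    have f5 := f4.trans e3
    have f6 := f5.trans s4
    have f7 := f6.trans s5
    have f8 := f7.trans e5
    have f9 := f8.trans s6
    refine ⟨?_, ?_, ⟨f6, t4⟩, ?_⟩
    · intro i hi
      by_cases hig : i ≤ g
      · exact ⟨segM u hu 0 i (by omega) hi (fun l _ h => hng l (by omega)),
          (segM u hu i g hig (by omega) (fun l _ h => hng l (by omega))).trans t10⟩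
      · exact ⟨f9.trans (segM u hu (g + 1) i (by omega) hi (fun l h _ => hng l (by omega))),
          (segM u hu i F.length hi le_rfl (fun l h _ => hng l (by omega))).trans s3⟩
    · intro i hi
      by_cases hig : i ≤ g
      · exact ⟨f4.trans (segC u hu i g hig (by omega) (fun l _ h => hng l (by omega))),
          (segC u hu 0 i (by omega) hi (fun l _ h => hng l (by omega))).trans t5⟩
      · exact ⟨f7.trans (segC u hu i F.length hi le_rfl (fun l h _ => hng l (by omega))),
          (segC u hu (g + 1) i (by omega) hi (fun l h _ => hng l (by omega))).trans t2⟩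
    · intro i hi k hk
      have : i = g := un u i g hi hg
      subst this
      rcases hk with rfl | rfl | rfl
      · exact ⟨f1, t9⟩
      · exact ⟨f2, t8⟩
      · exact ⟨f3, t7⟩
  have gadX : ∀ u, u < Q → Relation.ReflTransGen R (1, u, 0) (3, u, 0) :=
    fun u hu => ((gad u hu).1 0 (by omega)).2
  -- the line of a triple
  have line : ∀ i, i < F.length → Relation.ReflTransGen R (5, i, 0) (6, i, 0) ∧
      (¬ ch i → ∀ u, inc F u i → ∀ k, (k = 7 ∨ k = 8 ∨ k = 9) →
        Relation.ReflTransGen R (5, i, 0) (k, u, i) ∧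
        Relation.ReflTransGen R (k, u, i) (6, i, 0)) := by
    intro i hi
    by_cases hc : ch i
    · exact ⟨st (mB i hi) (v6y i hc), fun h => absurd hc h⟩
    obtain ⟨q1, q2, q3, q4, q5, q6⟩ := p1 i hi
    have i1 : inc F (tr F i).1 i := ⟨hi, Or.inl rfl⟩
    have i2 : inc F (tr F i).2.1 i := ⟨hi, Or.inr (Or.inl rfl)⟩
    have i3 : inc F (tr F i).2.2 i := ⟨hi, Or.inr (Or.inr rfl)⟩
    have l1 : P2 F (9, (tr F i).1, i) = (5, i, 0) := by unfold P2; norm_num
    have l2 : P2 F (9, (tr F i).2.1, i) = (7, (tr F i).1, i) := by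
      unfold P2; norm_num [q1.symm]
    have l3 : P2 F (9, (tr F i).2.2, i) = (7, (tr F i).2.1, i) := by
      unfold P2; norm_num [q2.symm, q3.symm]
    have hn : ∀ u, ¬ us u i := fun u h => hc h.2
    have a1 := st (mr _ i i1) ((v9n _ i (hn _)).trans l1)
    have a2 := a1.trans (st (mq _ i i1) (v8n _ i (hn _)))
    have a3 := a2.trans (st (mp _ i i1) (v7n _ i (hn _)))
    have a4 := a3.trans (st (mr _ i i2) ((v9n _ i (hn _)).trans l2))
    have a5 := a4.trans (st (mq _ i i2) (v8n _ i (hn _)))
    have a6 := a5.trans (st (mp _ i i2) (v7n _ i (hn _)))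
    have a7 := a6.trans (st (mr _ i i3) ((v9n _ i (hn _)).trans l3))
    have a8 := a7.trans (st (mq _ i i3) (v8n _ i (hn _)))
    have a9 := a8.trans (st (mp _ i i3) (v7n _ i (hn _)))
    have b9 := st (mB i hi) (v6n i hc)
    have b8 := (st (mp _ i i3) (v7n _ i (hn _))).trans b9
    have b7 := (st (mq _ i i3) (v8n _ i (hn _))).trans b8
    have b6 := (st (mr _ i i3) ((v9n _ i (hn _)).trans l3)).trans b7
    have b5 := (st (mp _ i i2) (v7n _ i (hn _))).trans b6
    have b4 := (st (mq _ i i2) (v8n _ i (hn _))).trans b5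
    have b3 := (st (mr _ i i2) ((v9n _ i (hn _)).trans l2)).trans b4
    have b2 := (st (mp _ i i1) (v7n _ i (hn _))).trans b3
    have b1 := (st (mq _ i i1) (v8n _ i (hn _))).trans b2
    refine ⟨a9.trans b9, fun _ u hu k hk => ?_⟩
    rcases hu.2 with rfl | rfl | rfl <;> rcases hk with rfl | rfl | rfl
    · exact ⟨a3, b3⟩
    · exact ⟨a2, b2⟩
    · exact ⟨a1, b1⟩
    · exact ⟨a6, b6⟩
    · exact ⟨a5, b5⟩
    · exact ⟨a4, b4⟩
    · exact ⟨a9, b9⟩
    · exact ⟨a8, b8⟩
    · exact ⟨a7, b7⟩
  -- everything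
  have toM : ∀ u, u < Q → Relation.ReflTransGen R (0, 0, 0) (1, u, 0) := by
    intro u
    induction u with
    | zero => exact fun h => st (mM 0 0 h (by omega)) v10
    | succ u ih =>
      intro h
      exact ((ih (by omega)).trans (gadX u (by omega))).trans
        (st (mM _ 0 h (by omega)) (v1s u))
  have toA : ∀ i, i < F.length → Relation.ReflTransGen R (0, 0, 0) (5, i, 0) := by
    intro i
    induction i with
    | zero =>
      intro h
      exact ((toM (Q - 1) (by omega)).trans (gadX (Q - 1) (by omega))).trans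
        (st (mA 0 h) v50)
    | succ i ih =>
      intro h
      exact ((ih (by omega)).trans (line i (by omega)).1).trans (st (mA _ h) (v5s i))
  have fromB : ∀ d i, i + d = F.length - 1 → Relation.ReflTransGen R (6, i, 0) (T0 F) := by
    intro d
    induction d with
    | zero =>
      intro i h
      have : T0 F = (6, i, 0) := by unfold T0; rw [← h]; rfl
      rw [this]
    | succ d ih =>
      intro i h
      exact ((st (mA (i + 1) (by omega)) (v5s i)).trans (line (i + 1) (by omega)).1).trans
        (ih (i + 1) (by omega))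
  have fromX : ∀ d u, u + d = Q - 1 → Relation.ReflTransGen R (3, u, 0) (T0 F) := by
    intro d
    induction d with
    | zero =>
      intro u h
      have : u = Q - 1 := by omega
      subst this
      exact ((st (mA 0 (by omega)) v50).trans (line 0 (by omega)).1).trans
        (fromB (F.length - 1) 0 (by omega))
    | succ d ih =>
      intro u h
      exact ((st (mM (u + 1) 0 (by omega) (by omega)) (v1s u)).trans (gadX (u + 1) (by omega))).trans
        (ih (u + 1) (by omega))
  have key : ∀ w ∈ Ws F Q, Relation.ReflTransGen R (0, 0, 0) w ∧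
      Relation.ReflTransGen R w (T0 F) := by
    rintro ⟨k, a, b⟩ hw
    rw [mem_Ws] at hw
    have fX : ∀ u, u < Q → Relation.ReflTransGen R (3, u, 0) (T0 F) :=
      fun u hu => fromX (Q - 1 - u) u (by omega)
    have fB : ∀ i, i < F.length → Relation.ReflTransGen R (6, i, 0) (T0 F) :=
      fun i hi => fromB (F.length - 1 - i) i (by omega)
    have h789 : ∀ k u i, (k = 7 ∨ k = 8 ∨ k = 9) → inc F u i →
        Relation.ReflTransGen R (0, 0, 0) (k, u, i) ∧
        Relation.ReflTransGen R (k, u, i) (T0 F) := by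
      intro k u i hk hu
      have huQ := hlt u i hu
      by_cases hc : ch i
      · have := (gad u huQ).2.2.2 i ⟨hu, hc⟩ k hk
        exact ⟨(toM u huQ).trans this.1, this.2.trans (fX u huQ)⟩
      · have := (line i hu.1).2 hc u hu k hk
        exact ⟨(toA i hu.1).trans this.1, this.2.trans (fB i hu.1)⟩
    rcases hw with ⟨rfl, g1, g2⟩ | ⟨rfl, g1, g2⟩ | ⟨rfl, g1, rfl⟩ | ⟨rfl, g1, rfl⟩ |
      ⟨rfl, g1, rfl⟩ | ⟨rfl, g1, rfl⟩ | ⟨rfl, g1, g2⟩ | ⟨rfl, g1, g2⟩ | ⟨rfl, g1, g2⟩
    · have := (gad a g1).1 b g2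
      exact ⟨(toM a g1).trans this.1, this.2.trans (fX a g1)⟩
    · have := (gad a g1).2.1 b g2
      exact ⟨(toM a g1).trans this.1, this.2.trans (fX a g1)⟩
    · exact ⟨(toM a g1).trans (gadX a g1), fX a g1⟩
    · have := (gad a g1).2.2.1
      exact ⟨(toM a g1).trans this.1, this.2.trans (fX a g1)⟩
    · exact ⟨toA a g1, (line a g1).1.trans (fB a g1)⟩
    · exact ⟨(toA a g1).trans (line a g1).1, fB a g1⟩
    · exact h789 7 a b (by omega) g2
    · exact h789 8 a b (by omega) g2
    · exact h789 9 a b (by omega) g2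
  exact ⟨fun w hw => (key w hw).1, fun w hw => (key w hw).2⟩

end Pool.Agent.X249.AS
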