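import Pool.Agent.X249.Kit

/-!
# Arc-disjoint antistrong and strong spanning subdigraphs
-/

set_option autoImplicit false

namespace Pool.Agent.X249.AS

/-- A digraph with the vertices in `V` and the arcs in `A`, without loops and parallel arcs. -/
def IsDigraph {α : Type} (V : List α) (A : List (α × α)) : Prop :=
  V.Nodup ∧ A.Nodup ∧ ∀ e ∈ A, e.1 ∈ V ∧ e.2 ∈ V ∧ e.1 ≠ e.2

/-- `Anti A d x y L`: the arcs in the list `L`, all in `A`, form a walk from `x` to `y` which uses
them alternately forward and backward; the last arc is forward, and the first arc is forward iff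
`d = true`. -/
inductive Anti {α : Type} (A : Set (α × α)) : Bool → α → α → List (α × α) → Prop
  | single {x y : α} : (x, y) ∈ A → Anti A true x y [(x, y)]
  | fwd {x z y : α} {L : List (α × α)} : (x, z) ∈ A → Anti A false z y L →
      Anti A true x y ((x, z) :: L)
  | bwd {x z y : α} {L : List (α × α)} : (z, x) ∈ A → Anti A true z y L →
      Anti A false x y ((z, x) :: L)

/-- The digraph with the vertices `V` and the arcs `A` is antistrong: it has at least three
vertices, and a forward antidirected trail (a walk that repeats no arc) between any two. -/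
def Antistrong {α : Type} (V : List α) (A : Set (α × α)) : Prop :=
  3 ≤ V.length ∧ ∀ x ∈ V, ∀ y ∈ V, x ≠ y → ∃ L, Anti A true x y L ∧ L.Nodup

/-- The digraph with the vertices `V` and the arcs `A` is strongly connected. -/
def Strong {α : Type} (V : List α) (A : Set (α × α)) : Prop :=
  ∀ x ∈ V, ∀ y ∈ V, Relation.ReflTransGen (fun a b => (a, b) ∈ A) x y

/-- There are arc-disjoint spanning subdigraphs, one antistrong and the other strong. -/
def Splits {α : Type} (V : List α) (A : List (α × α)) : Prop :=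
  ∃ A₁ A₂ : Set (α × α), (∀ e ∈ A₁, e ∈ A) ∧ (∀ e ∈ A₂, e ∈ A) ∧ Disjoint A₁ A₂ ∧
    Antistrong V A₁ ∧ Strong V A₂

/-- The decision problem: the digraph has arc-disjoint spanning subdigraphs, one antistrong and
the other strong. -/
def AntistrongPlusStrong (I : List ℕ × List (ℕ × ℕ)) : Prop := IsDigraph I.1 I.2 ∧ Splits I.1 I.2

section Rename

variable {α β : Type} {V : List α} {A : List (α × α)} {f : α → β}

theorem anti_map {A₁ : Set (α × α)} {d : Bool} {x y : α} {L : List (α × α)}
    (h : Anti A₁ d x y L) :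
    Anti ((fun e : α × α => (f e.1, f e.2)) '' A₁) d (f x) (f y)
      (L.map (fun e : α × α => (f e.1, f e.2))) := by
  induction h with
  | single h => exact Anti.single ⟨_, h, rfl⟩
  | fwd h _ ih => exact Anti.fwd ⟨_, h, rfl⟩ ih
  | bwd h _ ih => exact Anti.bwd ⟨_, h, rfl⟩ ih

theorem anti_sub {A₁ : Set (α × α)} {d : Bool} {x y : α} {L : List (α × α)}
    (h : Anti A₁ d x y L) : ∀ e ∈ L, e ∈ A₁ := by
  induction h with
  | single h =>
    intro e he
    rw [List.mem_singleton] at he
    rwa [he]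
  | fwd h _ ih =>
    intro e he
    rcases List.mem_cons.1 he with rfl | he
    · exact h
    · exact ih e he
  | bwd h _ ih =>
    intro e he
    rcases List.mem_cons.1 he with rfl | he
    · exact h
    · exact ih e he

theorem isDigraph_map (hf : ∀ x ∈ V, ∀ y ∈ V, f x = f y → x = y) (h : IsDigraph V A) :
    IsDigraph (V.map f) (A.map (fun e : α × α => (f e.1, f e.2))) := by
  obtain ⟨h1, h2, h3⟩ := h
  refine ⟨h1.map_on hf, h2.map_on ?_, ?_⟩
  · intro a ha b hb hab
    simp only [Prod.mk.injEq] at hab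
    exact Prod.ext (hf _ (h3 a ha).1 _ (h3 b hb).1 hab.1)
      (hf _ (h3 a ha).2.1 _ (h3 b hb).2.1 hab.2)
  · intro e he
    obtain ⟨a, ha, rfl⟩ := List.mem_map.1 he
    obtain ⟨g1, g2, g3⟩ := h3 a ha
    exact ⟨List.mem_map_of_mem g1, List.mem_map_of_mem g2, fun h => g3 (hf _ g1 _ g2 h)⟩

theorem splits_map (hf : ∀ x ∈ V, ∀ y ∈ V, f x = f y → x = y)
    (hA : ∀ e ∈ A, e.1 ∈ V ∧ e.2 ∈ V) (h : Splits V A) :
    Splits (V.map f) (A.map (fun e : α × α => (f e.1, f e.2))) := by
  obtain ⟨A₁, A₂, h1, h2, h3, ⟨h4, h5⟩, h6⟩ := h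
  refine ⟨(fun e : α × α => (f e.1, f e.2)) '' A₁, (fun e : α × α => (f e.1, f e.2)) '' A₂,
    ?_, ?_, ?_, ⟨by simpa using h4, ?_⟩, ?_⟩
  · rintro _ ⟨e, he, rfl⟩
    exact List.mem_map_of_mem (h1 e he)
  · rintro _ ⟨e, he, rfl⟩
    exact List.mem_map_of_mem (h2 e he)
  · rw [Set.disjoint_left] at h3 ⊢
    rintro _ ⟨a, ha, rfl⟩ ⟨b, hb, hab⟩
    simp only [Prod.mk.injEq] at hab
    have g1 := hA a (h1 a ha)
    have g2 := hA b (h2 b hb)
    have : b = a := Prod.ext (hf _ g2.1 _ g1.1 hab.1) (hf _ g2.2 _ g1.2 hab.2)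
    subst this
    exact h3 ha hb
  · intro x hx y hy hxy
    obtain ⟨a, ha, rfl⟩ := List.mem_map.1 hx
    obtain ⟨b, hb, rfl⟩ := List.mem_map.1 hy
    obtain ⟨L, hL, hn⟩ := h5 a ha b hb (fun h => hxy (by rw [h]))
    refine ⟨_, anti_map hL, hn.map_on ?_⟩
    intro e he e' he' hee
    simp only [Prod.mk.injEq] at hee
    have g1 := hA e (h1 e (anti_sub hL e he))
    have g2 := hA e' (h1 e' (anti_sub hL e' he'))
    exact Prod.ext (hf _ g1.1 _ g2.1 hee.1) (hf _ g1.2 _ g2.2 hee.2)
  · intro x hx y hy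
    obtain ⟨a, ha, rfl⟩ := List.mem_map.1 hx
    obtain ⟨b, hb, rfl⟩ := List.mem_map.1 hy
    exact (h6 a ha b hb).lift f (fun u v huv => ⟨(u, v), huv, rfl⟩)

end Rename

/-! ### The bipartite representation -/

section Bip

variable {α : Type}

/-- The bipartite representation of the digraph with the arcs `A`. -/
def bip (A : Set (α × α)) : SimpleGraph (α ⊕ α) where
  Adj u v := (∃ x y, u = Sum.inl x ∧ v = Sum.inr y ∧ (x, y) ∈ A) ∨
    ∃ x y, v = Sum.inl x ∧ u = Sum.inr y ∧ (x, y) ∈ A
  symm := ⟨fun u v h => h.symm⟩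
  loopless := ⟨by
    rintro u (⟨x, y, rfl, h, -⟩ | ⟨x, y, rfl, h, -⟩) <;> simp at h⟩

theorem bip_lr {A : Set (α × α)} {x y : α} : (bip A).Adj (Sum.inl x) (Sum.inr y) ↔ (x, y) ∈ A := by
  simp [bip]

theorem bip_rl {A : Set (α × α)} {x y : α} : (bip A).Adj (Sum.inr y) (Sum.inl x) ↔ (x, y) ∈ A := by
  simp [bip]

theorem not_ll {A : Set (α × α)} {x y : α} : ¬ (bip A).Adj (Sum.inl x) (Sum.inl y) := by
  simp [bip]

theorem not_rr {A : Set (α × α)} {x y : α} : ¬ (bip A).Adj (Sum.inr x) (Sum.inr y) := by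
  simp [bip]

/-- The arcs of a list, as edges of the bipartite representation. -/
def toE (e : α × α) : Sym2 (α ⊕ α) := s(Sum.inl e.1, Sum.inr e.2)

theorem anti_of_walk {A : Set (α × α)} {u v : α ⊕ α} (w : (bip A).Walk u v) (y : α)
    (hv : v = Sum.inr y) :
    (∀ x, u = Sum.inl x → ∃ L, Anti A true x y L ∧ L.map toE = w.edges) ∧
    (∀ x, u = Sum.inr x → (w.edges = [] ∧ x = y) ∨
      ∃ L, Anti A false x y L ∧ L.map toE = w.edges) := by
  induction w with
  | nil =>
    subst hv
    refine ⟨fun x hx => by simp at hx, fun x hx => Or.inl ⟨rfl, ?_⟩⟩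
    simpa using hx.symm
  | @cons u v' w' h p ih =>
    obtain ⟨ih1, ih2⟩ := ih hv
    refine ⟨?_, ?_⟩
    · rintro x rfl
      rcases v' with z | z
      · exact absurd h not_ll
      · have hxz : (x, z) ∈ A := bip_lr.1 h
        rcases ih2 z rfl with ⟨h1, rfl⟩ | ⟨L, h1, h2⟩
        · refine ⟨[(x, z)], Anti.single hxz, ?_⟩
          rw [SimpleGraph.Walk.edges_cons, h1]
          rfl
        · refine ⟨(x, z) :: L, Anti.fwd hxz h1, ?_⟩
          rw [SimpleGraph.Walk.edges_cons, List.map_cons, h2]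
          rfl
    · rintro x rfl
      rcases v' with z | z
      · have hzx : (z, x) ∈ A := bip_rl.1 h
        obtain ⟨L, h1, h2⟩ := ih1 z rfl
        refine Or.inr ⟨(z, x) :: L, Anti.bwd hzx h1, ?_⟩
        rw [SimpleGraph.Walk.edges_cons, List.map_cons, h2, Sym2.eq_swap]
        rfl
      · exact absurd h not_rr

theorem trail_of_reach [DecidableEq α] {A : Set (α × α)} {x y : α}
    (h : (bip A).Reachable (Sum.inl x) (Sum.inr y)) : ∃ L, Anti A true x y L ∧ L.Nodup := by
  obtain ⟨p, hp⟩ := h.exists_isPath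
  obtain ⟨L, h1, h2⟩ := (anti_of_walk p y rfl).1 x rfl
  refine ⟨L, h1, ?_⟩
  have h3 : (L.map toE).Nodup := by
    rw [h2]
    exact hp.isTrail.edges_nodup
  exact h3.of_map

theorem reach_of_anti {A : Set (α × α)} {d : Bool} {x y : α} {L : List (α × α)}
    (h : Anti A d x y L) :
    (bip A).Reachable (if d = true then Sum.inl x else Sum.inr x) (Sum.inr y) := by
  induction h with
  | single h => exact (bip_lr.2 h).reachable
  | fwd h _ ih => exact (bip_lr.2 h).reachable.trans ih
  | bwd h _ ih => exact (bip_rl.2 h).reachable.trans ih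

/-- The number of arcs of an antistrong digraph. -/
theorem antistrong_card [DecidableEq α] {V : List α} (hV : V.Nodup) {A : Set (α × α)}
    (B : Finset (α × α)) (hB : ∀ e ∈ A, e ∈ B) (hA : ∀ e ∈ A, e.1 ∈ V ∧ e.2 ∈ V)
    (h : Antistrong V A) : 2 * V.length ≤ B.card + 1 := by
  classical
  obtain ⟨h3, h⟩ := h
  let S := {x : α // x ∈ V}
  let A' : Set (S × S) := {e | ((e.1 : α), (e.2 : α)) ∈ A}
  have key : ∀ {d : Bool} {x y : α} {L : List (α × α)}, Anti A d x y L → ∀ (hx : x ∈ V)
      (hy : y ∈ V), (bip A').Reachable (if d = true then Sum.inl (⟨x, hx⟩ : S)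
        else Sum.inr (⟨x, hx⟩ : S)) (Sum.inr (⟨y, hy⟩ : S)) := by
    intro d x y L hL
    induction hL with
    | single h =>
      intro hx hy
      exact (bip_lr.2 (show ((⟨_, hx⟩ : S), (⟨_, hy⟩ : S)) ∈ A' from h)).reachable
    | @fwd x z y L h _ ih =>
      intro hx hy
      have hz := (hA _ h).2
      exact (bip_lr.2 (show ((⟨x, hx⟩ : S), (⟨z, hz⟩ : S)) ∈ A' from h)).reachable.trans
        (ih hz hy)
    | @bwd x z y L h _ ih =>
      intro hx hy
      have hz := (hA _ h).1
      exact (bip_rl.2 (show ((⟨z, hz⟩ : S), (⟨x, hx⟩ : S)) ∈ A' from h)).reachable.trans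
        (ih hz hy)
  have hlr : ∀ x y : S, x ≠ y → (bip A').Reachable (Sum.inl x) (Sum.inr y) := by
    intro x y hxy
    obtain ⟨L, hL, -⟩ := h x x.2 y y.2 (fun h => hxy (Subtype.ext h))
    exact key hL x.2 y.2
  have hcardS : Fintype.card S = V.length := by
    rw [← List.toFinset_card_of_nodup hV, ← Fintype.card_coe]
    exact Fintype.card_congr (Equiv.subtypeEquivRight (fun x => by simp))
  have hthird : ∀ x y : S, ∃ z : S, z ≠ x ∧ z ≠ y := by
    intro x y
    by_contra hcon
    push Not at hcon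
    have : (Finset.univ : Finset S) ⊆ {x, y} := by
      intro z _
      rw [Finset.mem_insert, Finset.mem_singleton]
      by_cases hz : z = x
      · exact Or.inl hz
      · exact Or.inr (hcon z hz)
    have h4 := Finset.card_le_card this
    rw [Finset.card_univ, hcardS] at h4
    have h5 := Finset.card_le_two (a := x) (b := y)
    omega
  have hxx : ∀ x : S, (bip A').Reachable (Sum.inl x) (Sum.inr x) := by
    intro x
    obtain ⟨y, hy, -⟩ := hthird x x
    obtain ⟨z, hz, hz'⟩ := hthird x y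
    exact (hlr x y hy.symm).trans ((hlr z y hz').symm.trans (hlr z x hz))
  have hall : ∀ x y : S, (bip A').Reachable (Sum.inl x) (Sum.inr y) := by
    intro x y
    by_cases hxy : x = y
    · subst hxy; exact hxx x
    · exact hlr x y hxy
  obtain ⟨x0, -⟩ : ∃ x0 : S, True := by
    have : 0 < Fintype.card S := by omega
    obtain ⟨x0⟩ := Fintype.card_pos_iff.1 this
    exact ⟨x0, trivial⟩
  have hconn : (bip A').Connected := by
    haveI : Nonempty (S ⊕ S) := ⟨Sum.inl x0⟩
    have h1 : ∀ u : S ⊕ S, (bip A').Reachable (Sum.inl x0) u := by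
      rintro (u | u)
      · exact (hall x0 x0).trans (hall u x0).symm
      · exact hall x0 u
    exact ⟨fun u v => (h1 u).symm.trans (h1 v)⟩
  have h1 := hconn.card_vert_le_card_edgeSet_add_one
  have h2 : Nat.card (S ⊕ S) = 2 * V.length := by
    rw [Nat.card_eq_fintype_card, Fintype.card_sum, hcardS]
    ring
  have h4 : Nat.card (bip A').edgeSet ≤ B.card := by
    have hsub : ∀ e ∈ (bip A').edgeSet, ∃ a : S × S, a ∈ A' ∧ toE a = e := by
      intro e
      induction e using Sym2.ind with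
      | _ u v =>
        intro he
        rw [SimpleGraph.mem_edgeSet] at he
        rcases u with u | u <;> rcases v with v | v
        · exact absurd he not_ll
        · exact ⟨(u, v), bip_lr.1 he, rfl⟩
        · exact ⟨(v, u), bip_rl.1 he, Sym2.eq_swap⟩
        · exact absurd he not_rr
    choose g hg1 hg2 using hsub
    let F : (bip A').edgeSet → B := fun e => ⟨((g e.1 e.2).1.1, (g e.1 e.2).2.1), hB _ (hg1 e.1 e.2)⟩
    have hF : Function.Injective F := by
      intro e e' hee
      have h5 : (((g e.1 e.2).1.1, (g e.1 e.2).2.1) : α × α) =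
        ((g e'.1 e'.2).1.1, (g e'.1 e'.2).2.1) := congrArg Subtype.val hee
      simp only [Prod.mk.injEq] at h5
      have h6 : g e.1 e.2 = g e'.1 e'.2 :=
        Prod.ext (Subtype.ext h5.1) (Subtype.ext h5.2)
      apply Subtype.ext
      rw [← hg2 e.1 e.2, ← hg2 e'.1 e'.2, h6]
    have h7 := Nat.card_le_card_of_injective F hF
    rwa [Nat.card_eq_fintype_card (α := B), Fintype.card_coe] at h7
  omega

end Bip

end Pool.Agent.X249.AS
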