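import Pool.Agent.X249.AS.StepA
import Pool.Agent.H632R2.X3C

/-!
# The instance of an exact cover problem
-/

set_option autoImplicit false

namespace Pool.Agent.X249.AS

open Pool.Agent.NPC Pool.Agent.NPC.H632

abbrev Cd : Type := ℕ × ℕ × ℕ

/-- The triple number `i`. -/
def tr (F : List (ℕ × ℕ × ℕ)) (i : ℕ) : ℕ × ℕ × ℕ := F.getD i (0, 0, 0)

/-- The triple number `i` contains `u`. -/
def inc (F : List (ℕ × ℕ × ℕ)) (u i : ℕ) : Prop :=
  i < F.length ∧ (u = (tr F i).1 ∨ u = (tr F i).2.1 ∨ u = (tr F i).2.2)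

instance (F : List (ℕ × ℕ × ℕ)) (u i : ℕ) : Decidable (inc F u i) := by
  unfold inc; infer_instance

/-- The vertices. -/
def Ws (F : List (ℕ × ℕ × ℕ)) (Q : ℕ) : List Cd :=
  (List.range Q ×ˢ List.range (F.length + 1)).map (fun p : ℕ × ℕ => ((1, p.1, p.2) : Cd)) ++
  (List.range Q ×ˢ List.range (F.length + 1)).map (fun p : ℕ × ℕ => ((2, p.1, p.2) : Cd)) ++
  (List.range Q).map (fun u : ℕ => ((3, u, 0) : Cd)) ++
  (List.range Q).map (fun u : ℕ => ((4, u, 0) : Cd)) ++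
  (List.range F.length).map (fun i : ℕ => ((5, i, 0) : Cd)) ++
  (List.range F.length).map (fun i : ℕ => ((6, i, 0) : Cd)) ++
  ((List.range Q ×ˢ List.range F.length).filter (fun p : ℕ × ℕ => decide (inc F p.1 p.2))).map
    (fun p : ℕ × ℕ => ((7, p.1, p.2) : Cd)) ++
  ((List.range Q ×ˢ List.range F.length).filter (fun p : ℕ × ℕ => decide (inc F p.1 p.2))).map
    (fun p : ℕ × ℕ => ((8, p.1, p.2) : Cd)) ++
  ((List.range Q ×ˢ List.range F.length).filter (fun p : ℕ × ℕ => decide (inc F p.1 p.2))).map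
    (fun p : ℕ × ℕ => ((9, p.1, p.2) : Cd))

/-- The last vertex. -/
def T0 (F : List (ℕ × ℕ × ℕ)) : Cd := (6, F.length - 1, 0)

/-- The first possible predecessor. -/
def P1 (F : List (ℕ × ℕ × ℕ)) (Q : ℕ) (w : Cd) : Cd :=
  if w.1 = 1 then (if w.2.2 = 0 then (if w.2.1 = 0 then (0, 0, 0) else (3, w.2.1 - 1, 0))
    else (1, w.2.1, w.2.2 - 1))
  else if w.1 = 2 then (if w.2.2 = F.length then (4, w.2.1, 0) else (2, w.2.1, w.2.2 + 1))
  else if w.1 = 3 then (1, w.2.1, F.length)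
  else if w.1 = 4 then (2, w.2.1, 0)
  else if w.1 = 5 then (if w.2.1 = 0 then (3, Q - 1, 0) else (6, w.2.1 - 1, 0))
  else if w.1 = 6 then (5, w.2.1, 0)
  else if w.1 = 7 then (1, w.2.1, w.2.2)
  else if w.1 = 8 then (7, w.2.1, w.2.2)
  else (8, w.2.1, w.2.2)

/-- The second possible predecessor. -/
def P2 (F : List (ℕ × ℕ × ℕ)) (w : Cd) : Cd :=
  if w.1 = 1 then (if w.2.2 = 0 then T0 F else if inc F w.2.1 (w.2.2 - 1) then (2, w.2.1, w.2.2)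
    else T0 F)
  else if w.1 = 2 then (if w.2.2 = F.length then T0 F else if inc F w.2.1 w.2.2 then
    (9, w.2.1, w.2.2) else T0 F)
  else if w.1 = 3 then T0 F
  else if w.1 = 4 then T0 F
  else if w.1 = 5 then T0 F
  else if w.1 = 6 then (7, (tr F w.2.1).2.2, w.2.1)
  else if w.1 = 7 then (8, w.2.1, w.2.2)
  else if w.1 = 8 then (9, w.2.1, w.2.2)
  else if w.2.1 = (tr F w.2.2).1 then (5, w.2.2, 0)
  else if w.2.1 = (tr F w.2.2).2.1 then (7, (tr F w.2.2).1, w.2.2)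
  else (7, (tr F w.2.2).2.1, w.2.2)

theorem mem_Ws {F : List (ℕ × ℕ × ℕ)} {Q k a b : ℕ} : (k, a, b) ∈ Ws F Q ↔
    (k = 1 ∧ a < Q ∧ b ≤ F.length) ∨ (k = 2 ∧ a < Q ∧ b ≤ F.length) ∨ (k = 3 ∧ a < Q ∧ b = 0) ∨
    (k = 4 ∧ a < Q ∧ b = 0) ∨ (k = 5 ∧ a < F.length ∧ b = 0) ∨ (k = 6 ∧ a < F.length ∧ b = 0) ∨
    (k = 7 ∧ a < Q ∧ inc F a b) ∨ (k = 8 ∧ a < Q ∧ inc F a b) ∨ (k = 9 ∧ a < Q ∧ inc F a b) := by
  have hb : ∀ b, inc F a b → b < F.length := fun b h => h.1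
  unfold Ws
  simp only [List.mem_append, List.mem_map, List.mem_filter, List.mem_range, Prod.exists,
    Prod.mk.injEq, List.mem_product, decide_eq_true_eq]
  constructor
  · rintro ((((((((⟨u, i, ⟨h1, h2⟩, rfl, rfl, rfl⟩ | ⟨u, i, ⟨h1, h2⟩, rfl, rfl, rfl⟩) |
      ⟨u, h1, rfl, rfl, rfl⟩) | ⟨u, h1, rfl, rfl, rfl⟩) | ⟨u, h1, rfl, rfl, rfl⟩) |
      ⟨u, h1, rfl, rfl, rfl⟩) | ⟨u, i, ⟨⟨h1, h2⟩, h3⟩, rfl, rfl, rfl⟩) |
      ⟨u, i, ⟨⟨h1, h2⟩, h3⟩, rfl, rfl, rfl⟩) | ⟨u, i, ⟨⟨h1, h2⟩, h3⟩, rfl, rfl, rfl⟩)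
    · exact Or.inl ⟨rfl, h1, by omega⟩
    · exact Or.inr (Or.inl ⟨rfl, h1, by omega⟩)
    · exact Or.inr (Or.inr (Or.inl ⟨rfl, h1, rfl⟩))
    · exact Or.inr (Or.inr (Or.inr (Or.inl ⟨rfl, h1, rfl⟩)))
    · exact Or.inr (Or.inr (Or.inr (Or.inr (Or.inl ⟨rfl, h1, rfl⟩))))
    · exact Or.inr (Or.inr (Or.inr (Or.inr (Or.inr (Or.inl ⟨rfl, h1, rfl⟩)))))
    · exact Or.inr (Or.inr (Or.inr (Or.inr (Or.inr (Or.inr (Or.inl ⟨rfl, h1, h3⟩))))))
    · exact Or.inr (Or.inr (Or.inr (Or.inr (Or.inr (Or.inr (Or.inr (Or.inl ⟨rfl, h1, h3⟩)))))))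
    · exact Or.inr (Or.inr (Or.inr (Or.inr (Or.inr (Or.inr (Or.inr (Or.inr ⟨rfl, h1, h3⟩)))))))
  · rintro (⟨rfl, h1, h2⟩ | ⟨rfl, h1, h2⟩ | ⟨rfl, h1, rfl⟩ | ⟨rfl, h1, rfl⟩ | ⟨rfl, h1, rfl⟩ |
      ⟨rfl, h1, rfl⟩ | ⟨rfl, h1, h2⟩ | ⟨rfl, h1, h2⟩ | ⟨rfl, h1, h2⟩)
    · exact Or.inl (Or.inl (Or.inl (Or.inl (Or.inl (Or.inl (Or.inl (Or.inl
        ⟨a, b, ⟨h1, by omega⟩, rfl, rfl, rfl⟩)))))))
    · exact Or.inl (Or.inl (Or.inl (Or.inl (Or.inl (Or.inl (Or.inl (Or.inr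
        ⟨a, b, ⟨h1, by omega⟩, rfl, rfl, rfl⟩)))))))
    · exact Or.inl (Or.inl (Or.inl (Or.inl (Or.inl (Or.inl (Or.inr ⟨a, h1, rfl, rfl, rfl⟩))))))
    · exact Or.inl (Or.inl (Or.inl (Or.inl (Or.inl (Or.inr ⟨a, h1, rfl, rfl, rfl⟩)))))
    · exact Or.inl (Or.inl (Or.inl (Or.inl (Or.inr ⟨a, h1, rfl, rfl, rfl⟩))))
    · exact Or.inl (Or.inl (Or.inl (Or.inr ⟨a, h1, rfl, rfl, rfl⟩)))
    · exact Or.inl (Or.inl (Or.inr ⟨a, b, ⟨⟨h1, hb b h2⟩, h2⟩, rfl, rfl, rfl⟩))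
    · exact Or.inl (Or.inr ⟨a, b, ⟨⟨h1, hb b h2⟩, h2⟩, rfl, rfl, rfl⟩)
    · exact Or.inr ⟨a, b, ⟨⟨h1, hb b h2⟩, h2⟩, rfl, rfl, rfl⟩

theorem Ws_nodup (F : List (ℕ × ℕ × ℕ)) (Q : ℕ) : (Ws F Q).Nodup := by
  have hp : ∀ a b : ℕ, (List.range a ×ˢ List.range b).Nodup :=
    fun a b => List.nodup_range.product List.nodup_range
  have i3 : ∀ k : ℕ, ∀ l : List (ℕ × ℕ), l.Nodup →
      Tagged (fun w : Cd => w.1) [k] (l.map (fun p : ℕ × ℕ => ((k, p.1, p.2) : Cd))) := by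
    intro k l hl
    apply Tagged.single hl
    · rintro ⟨a, b⟩ _ ⟨a', b'⟩ _ h
      simp only [Prod.mk.injEq] at h ⊢
      tauto
    · intro a; rfl
  have i2 : ∀ k : ℕ, ∀ l : List ℕ, l.Nodup →
      Tagged (fun w : Cd => w.1) [k] (l.map (fun p : ℕ => ((k, p, 0) : Cd))) := by
    intro k l hl
    apply Tagged.single hl
    · intro a _ b _ h
      simp only [Prod.mk.injEq] at h
      tauto
    · intro a; rfl
  unfold Ws
  exact (((((((((i3 1 _ (hp _ _)).app (i3 2 _ (hp _ _)) (by decide)).app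
    (i2 3 _ List.nodup_range) (by decide)).app (i2 4 _ List.nodup_range) (by decide)).app
    (i2 5 _ List.nodup_range) (by decide)).app (i2 6 _ List.nodup_range) (by decide)).app
    (i3 7 _ ((hp _ _).filter _)) (by decide)).app (i3 8 _ ((hp _ _).filter _)) (by decide)).app
    (i3 9 _ ((hp _ _).filter _)) (by decide)).1

variable {F : List (ℕ × ℕ × ℕ)} {Q : ℕ}

/-- The promise. -/
def Pr (F : List (ℕ × ℕ × ℕ)) (Q : ℕ) : Prop :=
  (∀ i < F.length, (tr F i).1 ≠ (tr F i).2.1 ∧ (tr F i).1 ≠ (tr F i).2.2 ∧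
    (tr F i).2.1 ≠ (tr F i).2.2 ∧ (tr F i).1 < Q ∧ (tr F i).2.1 < Q ∧ (tr F i).2.2 < Q) ∧
    1 ≤ Q ∧ 1 ≤ F.length

theorem inc_lt (h : Pr F Q) {u i : ℕ} (hu : inc F u i) : u < Q := by
  obtain ⟨h1, h2⟩ := hu
  have := h.1 i h1
  omega

theorem inst (h : Pr F Q) :
    Inst (Ws F Q) (P1 F Q) (P2 F) (0, 0, 0) (0, 1, 0) (0, 2, 0) (T0 F) := by
  obtain ⟨h1, h2, h3⟩ := h
  have hT : T0 F ∈ Ws F Q := by
    unfold T0
    rw [mem_Ws]
    omega
  have i1 : ∀ i < F.length, inc F (tr F i).1 i := fun i hi => ⟨hi, Or.inl rfl⟩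
  have i2 : ∀ i < F.length, inc F (tr F i).2.1 i := fun i hi => ⟨hi, Or.inr (Or.inl rfl)⟩
  have i3 : ∀ i < F.length, inc F (tr F i).2.2 i := fun i hi => ⟨hi, Or.inr (Or.inr rfl)⟩
  refine ⟨?_, hT, ?_, ?_, ?_, ?_, ?_⟩
  · rw [List.nodup_cons, List.nodup_cons, List.nodup_cons]
    simp only [List.mem_cons, mem_Ws, Prod.mk.injEq]
    refine ⟨by omega, by omega, by omega, Ws_nodup F Q⟩
  · rintro ⟨k, a, b⟩ hw
    rw [mem_Ws] at hw
    rcases hw with ⟨rfl, g1, g2⟩ | ⟨rfl, g1, g2⟩ | ⟨rfl, g1, rfl⟩ | ⟨rfl, g1, rfl⟩ |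
      ⟨rfl, g1, rfl⟩ | ⟨rfl, g1, rfl⟩ | ⟨rfl, g1, g2⟩ | ⟨rfl, g1, g2⟩ | ⟨rfl, g1, g2⟩
    · unfold P1
      simp only [if_true]
      split_ifs
      · exact Or.inl rfl
      · right; rw [mem_Ws]; omega
      · right; rw [mem_Ws]; omega
    · unfold P1
      norm_num
      split_ifs <;> (right; rw [mem_Ws]; omega)
    · right; unfold P1; norm_num; rw [mem_Ws]; omega
    · right; unfold P1; norm_num; rw [mem_Ws]; omega
    · unfold P1
      norm_num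
      split_ifs <;> (right; rw [mem_Ws]; omega)
    · right; unfold P1; norm_num; rw [mem_Ws]; omega
    · have := g2.1
      right; unfold P1; norm_num; rw [mem_Ws]; omega
    · right; unfold P1; norm_num; rw [mem_Ws]
      right; right; right; right; right; right; left
      exact ⟨rfl, g1, g2⟩
    · right; unfold P1; norm_num; rw [mem_Ws]
      right; right; right; right; right; right; right; left
      exact ⟨rfl, g1, g2⟩
  · rintro ⟨k, a, b⟩ hw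
    right
    rw [mem_Ws] at hw
    rcases hw with ⟨rfl, g1, g2⟩ | ⟨rfl, g1, g2⟩ | ⟨rfl, g1, rfl⟩ | ⟨rfl, g1, rfl⟩ |
      ⟨rfl, g1, rfl⟩ | ⟨rfl, g1, rfl⟩ | ⟨rfl, g1, g2⟩ | ⟨rfl, g1, g2⟩ | ⟨rfl, g1, g2⟩
    · unfold P2
      simp only [if_true]
      split_ifs
      · exact hT
      · rw [mem_Ws]; omega
      · exact hT
    · unfold P2
      norm_num
      split_ifs with hb hi
      · exact hT
      · rw [mem_Ws]
        right; right; right; right; right; right; right; right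
        exact ⟨rfl, g1, hi⟩
      · exact hT
    · unfold P2; norm_num; exact hT
    · unfold P2; norm_num; exact hT
    · unfold P2; norm_num; exact hT
    · unfold P2; norm_num; rw [mem_Ws]
      right; right; right; right; right; right; left
      exact ⟨rfl, (h1 a g1).2.2.2.2.2, i3 a g1⟩
    · unfold P2; norm_num; rw [mem_Ws]
      right; right; right; right; right; right; right; left
      exact ⟨rfl, g1, g2⟩
    · unfold P2; norm_num; rw [mem_Ws]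
      right; right; right; right; right; right; right; right
      exact ⟨rfl, g1, g2⟩
    · unfold P2
      norm_num
      have hb := g2.1
      split_ifs
      · rw [mem_Ws]; omega
      · rw [mem_Ws]
        right; right; right; right; right; right; left
        exact ⟨rfl, (h1 b hb).2.2.2.1, i1 b hb⟩
      · rw [mem_Ws]
        right; right; right; right; right; right; left
        exact ⟨rfl, (h1 b hb).2.2.2.2.1, i2 b hb⟩
  · rintro ⟨k, a, b⟩ hw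
    rw [mem_Ws] at hw
    unfold P1 P2 T0
    simp only
    split_ifs <;> simp only [ne_eq, Prod.mk.injEq] <;> omega
  · rintro ⟨k, a, b⟩ hw
    rw [mem_Ws] at hw
    unfold P1
    simp only
    split_ifs <;> simp only [ne_eq, Prod.mk.injEq] <;> omega
  · rintro ⟨k, a, b⟩ hw
    rw [mem_Ws] at hw
    unfold P2 T0
    simp only
    split_ifs <;> simp only [ne_eq, Prod.mk.injEq] <;> omega

end Pool.Agent.X249.AS
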