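import Pool.Agent.X249.AS.Gad

/-!
# From a Hamiltonian path to an exact cover
-/

set_option autoImplicit false

namespace Pool.Agent.X249.AS

open Pool.Agent.NPC Pool.Agent.NPC.H632

variable {F : List (ℕ × ℕ × ℕ)} {Q : ℕ}

theorem xc_of_hpw (h : Pr F Q) (hp : HPW (Ws F Q) (P1 F Q) (P2 F) (0, 0, 0) (T0 F)) :
    XC F (List.range Q) := by
  classical
  obtain ⟨π, hπ, hT, hinj, hsur, hcl⟩ := hp
  obtain ⟨p1, p2, p3⟩ := h
  have hlt : ∀ u i, inc F u i → u < Q := fun u i => inc_lt ⟨p1, p2, p3⟩
  -- membership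
  have mM : ∀ u i, u < Q → i ≤ F.length → ((1, u, i) : Cd) ∈ Ws F Q := fun u i h1 h2 => by
    rw [mem_Ws]; omega
  have mC : ∀ u i, u < Q → i ≤ F.length → ((2, u, i) : Cd) ∈ Ws F Q := fun u i h1 h2 => by
    rw [mem_Ws]; omega
  have mK : ∀ u, u < Q → ((4, u, 0) : Cd) ∈ Ws F Q := fun u h1 => by
    rw [mem_Ws]; omega
  have mB : ∀ i, i < F.length → ((6, i, 0) : Cd) ∈ Ws F Q := fun u h1 => by
    rw [mem_Ws]; omega
  have mp : ∀ u i, inc F u i → ((7, u, i) : Cd) ∈ Ws F Q := fun u i h1 => by
    rw [mem_Ws]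
    right; right; right; right; right; right; left
    exact ⟨rfl, hlt u i h1, h1⟩
  have mq : ∀ u i, inc F u i → ((8, u, i) : Cd) ∈ Ws F Q := fun u i h1 => by
    rw [mem_Ws]
    right; right; right; right; right; right; right; left
    exact ⟨rfl, hlt u i h1, h1⟩
  have mr : ∀ u i, inc F u i → ((9, u, i) : Cd) ∈ Ws F Q := fun u i h1 => by
    rw [mem_Ws]
    right; right; right; right; right; right; right; right
    exact ⟨rfl, hlt u i h1, h1⟩
  -- possible predecessors
  have pp : ∀ u i, inc F u i → π (7, u, i) = (1, u, i) ∨ π (7, u, i) = (8, u, i) :=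
    fun u i h1 => hπ _ (mp u i h1)
  have pq : ∀ u i, inc F u i → π (8, u, i) = (7, u, i) ∨ π (8, u, i) = (9, u, i) :=
    fun u i h1 => hπ _ (mq u i h1)
  have pr : ∀ u i, inc F u i → π (9, u, i) = (8, u, i) ∨ π (9, u, i) = P2 F (9, u, i) :=
    fun u i h1 => hπ _ (mr u i h1)
  have pc : ∀ u i, inc F u i → π (2, u, i) = (2, u, i + 1) ∨ π (2, u, i) = (9, u, i) := by
    intro u i h1
    have h2 := h1.1
    have := hπ _ (mC u i (hlt u i h1) h2.le)
    unfold P1 P2 at this
    norm_num [h2.ne, h1] at this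
    exact this
  have pc' : ∀ u i, u < Q → i < F.length → ¬ inc F u i → π (2, u, i) = (2, u, i + 1) := by
    intro u i h0 h2 h1
    have h3 := hT _ (mC u i h0 h2.le)
    have := hπ _ (mC u i h0 h2.le)
    unfold P1 P2 at this
    norm_num [h2.ne, h1, h3] at this
    exact this
  have pcM : ∀ u, u < Q → π (2, u, F.length) = (4, u, 0) := by
    intro u h0
    have h3 := hT _ (mC u F.length h0 le_rfl)
    have := hπ _ (mC u F.length h0 le_rfl)
    unfold P1 P2 at this
    norm_num [h3] at this
    exact this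
  have pk : ∀ u, u < Q → π (4, u, 0) = (2, u, 0) := by
    intro u h0
    have h3 := hT _ (mK u h0)
    have := hπ _ (mK u h0)
    unfold P1 P2 at this
    norm_num [h3] at this
    exact this
  have pm : ∀ u i, inc F u i → π (1, u, i + 1) = (1, u, i) ∨ π (1, u, i + 1) = (2, u, i + 1) := by
    intro u i h1
    have h2 := h1.1
    have := hπ _ (mM u (i + 1) (hlt u i h1) h2)
    unfold P1 P2 at this
    norm_num [h1] at this
    exact this
  have pm' : ∀ u i, u < Q → i < F.length → ¬ inc F u i → π (1, u, i + 1) = (1, u, i) := by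
    intro u i h0 h2 h1
    have h3 := hT _ (mM u (i + 1) h0 h2)
    have := hπ _ (mM u (i + 1) h0 h2)
    unfold P1 P2 at this
    norm_num [h1, h3] at this
    exact this
  have pb : ∀ i, i < F.length → π (6, i, 0) = (5, i, 0) ∨
      π (6, i, 0) = (7, (tr F i).2.2, i) := by
    intro i h1
    exact hπ _ (mB i h1)
  -- the successors of the middle and of the last vertex of a gadget
  have sq : ∀ u i, inc F u i → π (7, u, i) = (8, u, i) ∨ π (9, u, i) = (8, u, i) := by
    intro u i h1
    have hne : ((8, u, i) : Cd) ≠ T0 F := by unfold T0; simp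
    obtain ⟨⟨k, a, b⟩, hw, hw'⟩ := hsur (8, u, i) (Or.inr (mq u i h1)) hne
    have h2 := hπ _ hw
    rw [hw'] at h2
    rw [mem_Ws] at hw
    rcases h2 with h2 | h2
    · unfold P1 at h2
      simp only at h2
      split_ifs at h2 <;> simp only [Prod.mk.injEq] at h2
      all_goals first
        | omega
        | (obtain ⟨-, rfl, rfl⟩ := h2
           have : k = 9 := by omega
           subst this
           exact Or.inr hw')
    · unfold P2 T0 at h2
      simp only at h2
      split_ifs at h2 <;> simp only [Prod.mk.injEq] at h2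
      all_goals first
        | omega
        | (obtain ⟨-, rfl, rfl⟩ := h2
           have : k = 7 := by omega
           subst this
           exact Or.inl hw')
  have sr : ∀ u i, inc F u i → π (8, u, i) = (9, u, i) ∨ π (2, u, i) = (9, u, i) := by
    intro u i h1
    have hne : ((9, u, i) : Cd) ≠ T0 F := by unfold T0; simp
    obtain ⟨⟨k, a, b⟩, hw, hw'⟩ := hsur (9, u, i) (Or.inr (mr u i h1)) hne
    have h2 := hπ _ hw
    rw [hw'] at h2
    rw [mem_Ws] at hw
    rcases h2 with h2 | h2
    · unfold P1 at h2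
      simp only at h2
      split_ifs at h2 <;> simp only [Prod.mk.injEq] at h2
      all_goals omega
    · unfold P2 T0 at h2
      simp only at h2
      split_ifs at h2 <;> simp only [Prod.mk.injEq] at h2
      all_goals first
        | omega
        | (obtain ⟨-, rfl, rfl⟩ := h2
           have : k = 2 ∨ k = 8 := by omega
           rcases this with rfl | rfl
           · exact Or.inr hw'
           · exact Or.inl hw')
  -- used gadgets
  let us : ℕ → ℕ → Prop := fun u i => inc F u i ∧ π (8, u, i) = (7, u, i)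
  have u1 : ∀ u i, us u i → π (7, u, i) = (1, u, i) := by
    rintro u i ⟨h1, h2⟩
    rcases pp u i h1 with h3 | h3
    · exact h3
    · exfalso
      refine hcl (fun w => w = (7, u, i) ∨ w = (8, u, i)) ?_ (7, u, i) (Or.inl rfl)
      rintro w (rfl | rfl)
      · exact ⟨mp u i h1, Or.inr h3⟩
      · exact ⟨mq u i h1, Or.inl h2⟩
  have u2 : ∀ u i, us u i → π (9, u, i) = (8, u, i) := by
    rintro u i ⟨h1, h2⟩
    rcases sq u i h1 with h3 | h3
    · rw [u1 u i ⟨h1, h2⟩] at h3
      simp at h3
    · exact h3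
  have u3 : ∀ u i, us u i → π (2, u, i) = (9, u, i) := by
    rintro u i ⟨h1, h2⟩
    rcases sr u i h1 with h3 | h3
    · rw [h2] at h3
      simp at h3
    · exact h3
  have u4 : ∀ u i, us u i → π (1, u, i + 1) = (2, u, i + 1) := by
    rintro u i ⟨h1, h2⟩
    rcases pm u i h1 with h3 | h3
    · have h4 := hinj _ (mM u (i + 1) (hlt u i h1) h1.1) _ (mp u i h1)
        (h3.trans (u1 u i ⟨h1, h2⟩).symm)
      simp at h4
    · exact h3
  have n1 : ∀ u i, inc F u i → ¬ us u i → π (8, u, i) = (9, u, i) := by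
    intro u i h1 h2
    rcases pq u i h1 with h3 | h3
    · exact absurd ⟨h1, h3⟩ h2
    · exact h3
  have n2 : ∀ u i, inc F u i → ¬ us u i → π (9, u, i) = P2 F (9, u, i) := by
    intro u i h1 h2
    rcases pr u i h1 with h3 | h3
    · exfalso
      refine hcl (fun w => w = (8, u, i) ∨ w = (9, u, i)) ?_ (8, u, i) (Or.inl rfl)
      rintro w (rfl | rfl)
      · exact ⟨mq u i h1, Or.inr (n1 u i h1 h2)⟩
      · exact ⟨mr u i h1, Or.inl h3⟩
    · exact h3
  have n3 : ∀ u i, u < Q → i < F.length → ¬ us u i → π (2, u, i) = (2, u, i + 1) := by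
    intro u i h0 hi h2
    by_cases h1 : inc F u i
    · rcases pc u i h1 with h3 | h3
      · exact h3
      · have h4 := hinj _ (mC u i h0 hi.le) _ (mq u i h1) (h3.trans (n1 u i h1 h2).symm)
        simp at h4
    · exact pc' u i h0 hi h1
  have n4 : ∀ u i, u < Q → i < F.length → ¬ us u i → π (1, u, i + 1) = (1, u, i) := by
    intro u i h0 hi h2
    by_cases h1 : inc F u i
    · rcases pm u i h1 with h3 | h3
      · exact h3
      · have h4 := hinj _ (mM u (i + 1) h0 hi) _ (mC u i h0 hi.le)
          (h3.trans (n3 u i h0 hi h2).symm)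
        simp at h4
    · exact pm' u i h0 hi h1
  -- exactly one is used
  have ex : ∀ u, u < Q → ∃ i, us u i := by
    intro u hu
    by_contra hcon
    push Not at hcon
    refine hcl (fun w => w = (4, u, 0) ∨ ∃ j ≤ F.length, w = (2, u, j)) ?_ (4, u, 0) (Or.inl rfl)
    rintro w (rfl | ⟨j, hj, rfl⟩)
    · exact ⟨mK u hu, Or.inr ⟨0, by omega, pk u hu⟩⟩
    · refine ⟨mC u j hu hj, ?_⟩
      rcases Nat.eq_or_lt_of_le hj with rfl | hj'
      · exact Or.inl (pcM u hu)
      · exact Or.inr ⟨j + 1, hj', n3 u j hu hj' (hcon j)⟩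
  have un : ∀ u i j, us u i → us u j → i < j → False := by
    intro u i j hi hj hij
    have hex : ∃ l, i < l ∧ us u l := ⟨j, hij, hj⟩
    obtain ⟨l0, ⟨l1, l2⟩, l3⟩ : ∃ l, (i < l ∧ us u l) ∧ ∀ l' < l, ¬ (i < l' ∧ us u l') :=
      ⟨Nat.find hex, Nat.find_spec hex, fun l' hl' => Nat.find_min hex hl'⟩
    have hu := hlt u i hi.1
    have hl := l2.1.1
    refine hcl (fun w => (∃ l, i < l ∧ l ≤ l0 ∧ (w = (1, u, l) ∨ w = (2, u, l))) ∨
      w = (7, u, l0) ∨ w = (8, u, l0) ∨ w = (9, u, l0)) ?_ (7, u, l0) (Or.inr (Or.inl rfl))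
    rintro w (⟨l, g1, g2, rfl | rfl⟩ | rfl | rfl | rfl)
    · refine ⟨mM u l hu (by omega), ?_⟩
      obtain ⟨l', rfl⟩ : ∃ l', l = l' + 1 := ⟨l - 1, by omega⟩
      rcases Nat.eq_or_lt_of_le (Nat.lt_succ_iff.1 g1) with rfl | g3
      · exact Or.inl ⟨i + 1, by omega, g2, Or.inr (u4 u i hi)⟩
      · exact Or.inl ⟨l', g3, by omega, Or.inl (n4 u l' hu (by omega)
          (fun h => l3 l' (by omega) ⟨g3, h⟩))⟩
    · refine ⟨mC u l hu (by omega), ?_⟩
      rcases Nat.eq_or_lt_of_le g2 with rfl | g3
      · exact Or.inr (Or.inr (Or.inr (u3 u l l2)))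
      · exact Or.inl ⟨l + 1, by omega, g3, Or.inr (n3 u l hu (by omega)
          (fun h => l3 l g3 ⟨g1, h⟩))⟩
    · exact ⟨mp u l0 l2.1, Or.inl ⟨l0, l1, le_rfl, Or.inl (u1 u l0 l2)⟩⟩
    · exact ⟨mq u l0 l2.1, Or.inr (Or.inl l2.2)⟩
    · exact ⟨mr u l0 l2.1, Or.inr (Or.inr (Or.inl (u2 u l0 l2)))⟩
  have un' : ∀ u i j, us u i → us u j → i = j := by
    intro u i j hi hj
    rcases lt_trichotomy i j with h1 | h1 | h1
    · exact (un u i j hi hj h1).elim
    · exact h1
    · exact (un u j i hj hi h1).elim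
  -- the lines of the triples
  have cons : ∀ u i, inc F u i → (us u i ↔ π (6, i, 0) = (5, i, 0)) := by
    intro u i hui
    have hi := hui.1
    obtain ⟨q1, q2, q3, q4, q5, q6⟩ := p1 i hi
    have i1 : inc F (tr F i).1 i := ⟨hi, Or.inl rfl⟩
    have i2 : inc F (tr F i).2.1 i := ⟨hi, Or.inr (Or.inl rfl)⟩
    have i3 : inc F (tr F i).2.2 i := ⟨hi, Or.inr (Or.inr rfl)⟩
    have l1 : P2 F (9, (tr F i).1, i) = (5, i, 0) := by unfold P2; norm_num
    have l2 : P2 F (9, (tr F i).2.1, i) = (7, (tr F i).1, i) := by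
      unfold P2; norm_num [q1.symm]
    have l3 : P2 F (9, (tr F i).2.2, i) = (7, (tr F i).2.1, i) := by
      unfold P2; norm_num [q2.symm, q3.symm]
    by_cases hc : π (6, i, 0) = (5, i, 0)
    · have e1 : us (tr F i).1 i := by
        by_contra hn
        have h4 := hinj _ (mr _ i i1) _ (mB i hi) (((n2 _ i i1 hn).trans l1).trans hc.symm)
        simp at h4
      have e2 : us (tr F i).2.1 i := by
        by_contra hn
        have h4 := hinj _ (mr _ i i2) _ (mq _ i i1) (((n2 _ i i2 hn).trans l2).trans e1.2.symm)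
        simp at h4
      have e3 : us (tr F i).2.2 i := by
        by_contra hn
        have h4 := hinj _ (mr _ i i3) _ (mq _ i i2) (((n2 _ i i3 hn).trans l3).trans e2.2.symm)
        simp at h4
      refine iff_of_true ?_ hc
      rcases hui.2 with rfl | rfl | rfl
      · exact e1
      · exact e2
      · exact e3
    · have hb := (pb i hi).resolve_left hc
      have e3 : ¬ us (tr F i).2.2 i := by
        intro hn
        have h4 := hinj _ (mq _ i i3) _ (mB i hi) (hn.2.trans hb.symm)
        simp at h4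
      have e2 : ¬ us (tr F i).2.1 i := by
        intro hn
        have h4 := hinj _ (mq _ i i2) _ (mr _ i i3) (hn.2.trans ((n2 _ i i3 e3).trans l3).symm)
        simp at h4
      have e1 : ¬ us (tr F i).1 i := by
        intro hn
        have h4 := hinj _ (mq _ i i1) _ (mr _ i i2) (hn.2.trans ((n2 _ i i2 e2).trans l2).symm)
        simp at h4
      refine iff_of_false ?_ hc
      rcases hui.2 with rfl | rfl | rfl
      · exact e1
      · exact e2
      · exact e3
  -- the exact cover
  have hel : ∀ u i, i < F.length → (u ∈ el (tr F i) ↔ inc F u i) := by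
    intro u i hi
    unfold el inc
    simp only [List.mem_cons, List.not_mem_nil, or_false]
    exact ⟨fun h => ⟨hi, h⟩, fun h => h.2⟩
  let idx := (List.range F.length).filter (fun i => decide (π (6, i, 0) = (5, i, 0)))
  have hidx : ∀ i, i ∈ idx ↔ i < F.length ∧ π (6, i, 0) = (5, i, 0) := by
    intro i
    simp only [idx, List.mem_filter, List.mem_range, decide_eq_true_eq]
  refine ⟨idx.map (tr F), ?_, ?_⟩
  · intro t ht
    obtain ⟨i, hi, rfl⟩ := List.mem_map.1 ht
    have h1 := ((hidx i).1 hi).1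
    unfold tr
    rw [List.getD_eq_getElem _ _ h1]
    exact List.getElem_mem h1
  · rw [List.perm_ext_iff_of_nodup]
    · intro u
      rw [List.mem_flatMap, List.mem_range]
      constructor
      · rintro ⟨t, ht, hu⟩
        obtain ⟨i, hi, rfl⟩ := List.mem_map.1 ht
        exact hlt u i ((hel u i ((hidx i).1 hi).1).1 hu)
      · intro hu
        obtain ⟨i, hi⟩ := ex u hu
        exact ⟨tr F i, List.mem_map_of_mem ((hidx i).2 ⟨hi.1.1, (cons u i hi.1).1 hi⟩),
          (hel u i hi.1.1).2 hi.1⟩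
    · rw [List.nodup_flatMap]
      refine ⟨?_, ?_⟩
      · intro t ht
        obtain ⟨i, hi, rfl⟩ := List.mem_map.1 ht
        obtain ⟨q1, q2, q3, -⟩ := p1 i ((hidx i).1 hi).1
        unfold el
        simp only [List.nodup_cons, List.mem_cons, List.not_mem_nil, or_false, not_or,
          List.nodup_nil, not_false_eq_true, and_true]
        exact ⟨⟨q1, q2⟩, q3⟩
      · rw [List.pairwise_map]
        have hnd : idx.Nodup := List.nodup_range.filter _
        refine hnd.pairwise_of_forall_ne ?_
        intro i hi j hj hij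
        intro u hu hu'
        have g1 := (hidx i).1 hi
        have g2 := (hidx j).1 hj
        have k1 := (hel u i g1.1).1 hu
        have k2 := (hel u j g2.1).1 hu'
        exact hij (un' u i j ((cons u i k1).2 g1.2) ((cons u j k2).2 g2.2))
    · exact List.nodup_range

end Pool.Agent.X249.AS
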