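import Pool.Agent.X249.AS.Build
import Pool.Agent.X249.AS.Weak

/-!
# The reduction
-/

set_option autoImplicit false

namespace Pool.Agent.X249.AS

open Pool.Agent.NPC Pool.Agent.NPC.H632

/-- The number of elements. -/
def QQ (I : List (ℕ × ℕ × ℕ) × ℕ) : ℕ := 3 * min I.2 I.1.length

/-- The vertices. -/
def VV (I : List (ℕ × ℕ × ℕ) × ℕ) : List Cd :=
  (0, 0, 0) :: (0, 1, 0) :: (0, 2, 0) :: Ws I.1 (QQ I)

/-- The arcs. -/
def AA (I : List (ℕ × ℕ × ℕ) × ℕ) : List (Cd × Cd) :=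
  arcs (Ws I.1 (QQ I)) (P1 I.1 (QQ I)) (P2 I.1) (0, 0, 0) (0, 1, 0) (0, 2, 0) (T0 I.1)

/-- The reduction. -/
noncomputable def red (I : List (ℕ × ℕ × ℕ) × ℕ) : List ℕ × List (ℕ × ℕ) :=
  ((VV I).map (index (VV I)), (AA I).map (fun e => (index (VV I) e.1, index (VV I) e.2)))

theorem pr_of {I : List (ℕ × ℕ × ℕ) × ℕ} (h : X3CPr I) : Pr I.1 (QQ I) ∧ QQ I = 3 * I.2 := by
  obtain ⟨h1, h2, h3⟩ := h
  have hq : QQ I = 3 * I.2 := by unfold QQ; rw [min_eq_left h3]
  refine ⟨⟨?_, ?_, ?_⟩, hq⟩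
  · intro i hi
    have h4 : tr I.1 i ∈ I.1 := by
      unfold tr
      rw [List.getD_eq_getElem _ _ hi]
      exact List.getElem_mem hi
    obtain ⟨h5, h6⟩ := h1 _ h4
    rw [hq]
    unfold el at h5 h6
    simp only [List.nodup_cons, List.mem_cons, List.not_mem_nil, or_false, not_or,
      List.nodup_nil, not_false_eq_true, and_true] at h5
    exact ⟨h5.1.1, h5.1.2, h5.2, h6 _ (by simp), h6 _ (by simp), h6 _ (by simp)⟩
  · omega
  · omega

theorem red_corr (I : List (ℕ × ℕ × ℕ) × ℕ) (hI : X3CPr I) :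
    X3C I ↔ AntistrongPlusStrong (red I) := by
  obtain ⟨hp, hq⟩ := pr_of hI
  have hin := inst hp
  have hdi : IsDigraph (VV I) (AA I) := isDigraph hin
  have hinj : ∀ x ∈ VV I, ∀ y ∈ VV I, index (VV I) x = index (VV I) y → x = y :=
    fun _ hx _ hy h => index_inj hx hy h
  have hAV : ∀ e ∈ AA I, e.1 ∈ VV I ∧ e.2 ∈ VV I := fun e he => ⟨(hdi.2.2 e he).1, (hdi.2.2 e he).2.1⟩
  unfold X3C
  rw [← hq]
  constructor
  · intro hx
    exact ⟨isDigraph_map hinj hdi, splits_map hinj hAV (splits_of_hps hin (hps_of_xc hp hx))⟩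
  · rintro ⟨-, hs⟩
    apply xc_of_hpw hp
    apply hpw_of_splits hin
    -- renaming back
    classical
    let g : ℕ → Cd := fun n => (VV I).getD n (0, 0, 0)
    have hg : ∀ x ∈ VV I, g (index (VV I) x) = x := by
      intro x hx
      have := getElem?_index hx
      show (VV I).getD (index (VV I) x) (0, 0, 0) = x
      rw [List.getD_eq_getElem?_getD, this]
      rfl
    have hginj : ∀ x ∈ (red I).1, ∀ y ∈ (red I).1, g x = g y → x = y := by
      intro x hx y hy hxy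
      obtain ⟨a, ha, rfl⟩ := List.mem_map.1 hx
      obtain ⟨b, hb, rfl⟩ := List.mem_map.1 hy
      rw [hg a ha, hg b hb] at hxy
      rw [hxy]
    have hAV' : ∀ e ∈ (red I).2, e.1 ∈ (red I).1 ∧ e.2 ∈ (red I).1 := by
      intro e he
      obtain ⟨a, ha, rfl⟩ := List.mem_map.1 he
      exact ⟨List.mem_map_of_mem (hAV a ha).1, List.mem_map_of_mem (hAV a ha).2⟩
    have h1 := splits_map hginj hAV' hs
    have e1 : (red I).1.map g = VV I := by
      unfold red
      simp only [List.map_map]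
      conv_rhs => rw [← List.map_id (VV I)]
      exact List.map_congr_left (fun x hx => hg x hx)
    have e2 : (red I).2.map (fun e : ℕ × ℕ => (g e.1, g e.2)) = AA I := by
      unfold red
      simp only [List.map_map]
      conv_rhs => rw [← List.map_id (AA I)]
      apply List.map_congr_left
      intro e he
      exact Prod.ext (hg _ (hAV e he).1) (hg _ (hAV e he).2)
    rw [e1, e2] at h1
    exact h1

section

variable {α : Type} [TEnc α]

@[fun_prop]
theorem poly_tr {F : α → List (ℕ × ℕ × ℕ)} {i : α → ℕ} (hF : Poly F) (hi : Poly i) :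
    Poly (fun a => tr (F a) (i a)) := by
  unfold tr
  fun_prop

@[fun_prop]
theorem dec_inc {F : α → List (ℕ × ℕ × ℕ)} {u i : α → ℕ}
    [inst : ∀ a, Decidable (inc (F a) (u a) (i a))] (hF : Poly F) (hu : Poly u) (hi : Poly i) :
    Poly (fun a => @decide (inc (F a) (u a) (i a)) (inst a)) := by
  unfold inc
  fun_prop

@[fun_prop]
theorem poly_T0 {F : α → List (ℕ × ℕ × ℕ)} (hF : Poly F) : Poly (fun a => T0 (F a)) := by
  unfold T0
  fun_prop

@[fun_prop]
theorem poly_P1 {F : α → List (ℕ × ℕ × ℕ)} {Q : α → ℕ} {w : α → Cd} (hF : Poly F) (hQ : Poly Q)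
    (hw : Poly w) : Poly (fun a => P1 (F a) (Q a) (w a)) := by
  unfold P1
  fun_prop

@[fun_prop]
theorem poly_P2 {F : α → List (ℕ × ℕ × ℕ)} {w : α → Cd} (hF : Poly F)
    (hw : Poly w) : Poly (fun a => P2 (F a) (w a)) := by
  unfold P2
  fun_prop

theorem poly_Ws {F : α → List (ℕ × ℕ × ℕ)} {Q : α → ℕ} (hF : Poly F) (hQ : UPoly Q) :
    Poly (fun a => Ws (F a) (Q a)) := by
  have key : ∀ {r1 r2 r3 : α → List ℕ}, Poly r1 → Poly r2 → Poly r3 → Poly (fun a =>
      (r1 a ×ˢ r2 a).map (fun p : ℕ × ℕ => ((1, p.1, p.2) : Cd)) ++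
      (r1 a ×ˢ r2 a).map (fun p : ℕ × ℕ => ((2, p.1, p.2) : Cd)) ++
      (r1 a).map (fun u : ℕ => ((3, u, 0) : Cd)) ++
      (r1 a).map (fun u : ℕ => ((4, u, 0) : Cd)) ++
      (r3 a).map (fun i : ℕ => ((5, i, 0) : Cd)) ++
      (r3 a).map (fun i : ℕ => ((6, i, 0) : Cd)) ++
      ((r1 a ×ˢ r3 a).filter (fun p : ℕ × ℕ => decide (inc (F a) p.1 p.2))).map
        (fun p : ℕ × ℕ => ((7, p.1, p.2) : Cd)) ++
      ((r1 a ×ˢ r3 a).filter (fun p : ℕ × ℕ => decide (inc (F a) p.1 p.2))).map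
        (fun p : ℕ × ℕ => ((8, p.1, p.2) : Cd)) ++
      ((r1 a ×ˢ r3 a).filter (fun p : ℕ × ℕ => decide (inc (F a) p.1 p.2))).map
        (fun p : ℕ × ℕ => ((9, p.1, p.2) : Cd))) := by
    intro r1 r2 r3 h1 h2 h3
    fun_prop
  exact key (UPoly.range hQ) (UPoly.range (UPoly.add (UPoly.length hF) (UPoly.const 1)))
    (UPoly.range (UPoly.length hF))

theorem upoly_QQ {I : α → List (ℕ × ℕ × ℕ) × ℕ} (h : Poly I) : UPoly (fun a => QQ (I a)) := by
  unfold QQ
  refine UPoly.mul (UPoly.const 3) (UPoly.of_le (n := fun a => (I a).1.length) ?_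
    (UPoly.length (by fun_prop)) (fun a => min_le_right _ _))
  fun_prop

@[fun_prop]
theorem poly_QQ {I : α → List (ℕ × ℕ × ℕ) × ℕ} (h : Poly I) : Poly (fun a => QQ (I a)) :=
  (upoly_QQ h).toPoly

@[fun_prop]
theorem poly_W {I : α → List (ℕ × ℕ × ℕ) × ℕ} (h : Poly I) :
    Poly (fun a => Ws (I a).1 (QQ (I a))) := poly_Ws (by fun_prop) (upoly_QQ h)

@[fun_prop]
theorem poly_VV {I : α → List (ℕ × ℕ × ℕ) × ℕ} (h : Poly I) : Poly (fun a => VV (I a)) := by
  unfold VV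
  have := poly_W h
  fun_prop

@[fun_prop]
theorem poly_AA {I : α → List (ℕ × ℕ × ℕ) × ℕ} (h : Poly I) : Poly (fun a => AA (I a)) := by
  have key : ∀ {W : α → List Cd}, Poly W → Poly (fun a =>
      (W a).map (fun w => (P1 (I a).1 (QQ (I a)) w, w)) ++
      (W a).map (fun w => (P2 (I a).1 w, w)) ++ (W a).map (fun w => (w, ((0, 0, 0) : Cd))) ++
      [(((0, 1, 0) : Cd), ((0, 2, 0) : Cd)), ((0, 2, 0), (0, 1, 0)), ((0, 1, 0), (0, 0, 0)),
        ((0, 2, 0), (0, 0, 0)), ((0, 0, 0), (0, 1, 0)), ((0, 0, 0), (0, 2, 0)),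
        (T0 (I a).1, (0, 1, 0)), (T0 (I a).1, (0, 2, 0))]) := by
    intro W hW
    fun_prop
  exact key (poly_W h)

end

theorem poly_red : Poly red := by
  unfold red
  fun_prop

theorem hard : HardI AntistrongPlusStrong := by
  have h : HardPr (fun _ => True) AntistrongPlusStrong :=
    hardPr_X3C.trans poly_red (fun _ _ => trivial) (fun I hI => red_corr I hI)
  exact h.toHardI

end Pool.Agent.X249.AS
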