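import Pool.Agent.X249.AS.Defs

/-!
# From Hamiltonian paths with two possible predecessors of each vertex
-/

set_option autoImplicit false

namespace Pool.Agent.X249.AS

section

variable {α : Type} [DecidableEq α]

/-- The data: `W` is the list of the vertices other than the start `s`; each has two possible
predecessors; `t` is the end. -/
structure Inst (W : List α) (P1 P2 : α → α) (s z y t : α) : Prop where
  hW : (s :: z :: y :: W).Nodup
  ht : t ∈ W
  hP1 : ∀ w ∈ W, P1 w = s ∨ P1 w ∈ W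
  hP2 : ∀ w ∈ W, P2 w = s ∨ P2 w ∈ W
  hne : ∀ w ∈ W, P1 w ≠ P2 w
  hl1 : ∀ w ∈ W, P1 w ≠ w
  hl2 : ∀ w ∈ W, P2 w ≠ w

/-- The constant arcs. -/
def cst (s z y t : α) : List (α × α) :=
  [(z, y), (y, z), (z, s), (y, s), (s, z), (s, y), (t, z), (t, y)]

/-- The arcs. -/
def arcs (W : List α) (P1 P2 : α → α) (s z y t : α) : List (α × α) :=
  W.map (fun w => (P1 w, w)) ++ W.map (fun w => (P2 w, w)) ++ W.map (fun w => (w, s)) ++
    cst s z y t

variable {W : List α} {P1 P2 : α → α} {s z y t : α}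

omit [DecidableEq α] in
theorem mem_arcs {a b : α} : (a, b) ∈ arcs W P1 P2 s z y t ↔
    (b ∈ W ∧ (a = P1 b ∨ a = P2 b)) ∨ (a ∈ W ∧ b = s) ∨ (a, b) ∈ cst s z y t := by
  unfold arcs
  simp only [List.mem_append, List.mem_map, Prod.mk.injEq]
  constructor
  · rintro (((⟨w, h, rfl, rfl⟩ | ⟨w, h, rfl, rfl⟩) | ⟨w, h, rfl, rfl⟩) | h)
    · exact Or.inl ⟨h, Or.inl rfl⟩
    · exact Or.inl ⟨h, Or.inr rfl⟩
    · exact Or.inr (Or.inl ⟨h, rfl⟩)
    · exact Or.inr (Or.inr h)
  · rintro (⟨h, h' | h'⟩ | ⟨h, rfl⟩ | h)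
    · exact Or.inl (Or.inl (Or.inl ⟨b, h, h'.symm, rfl⟩))
    · exact Or.inl (Or.inl (Or.inr ⟨b, h, h'.symm, rfl⟩))
    · exact Or.inl (Or.inr ⟨a, h, rfl, rfl⟩)
    · exact Or.inr h

omit [DecidableEq α] in
theorem mem_cst {a b : α} : (a, b) ∈ cst s z y t ↔ (a = z ∧ b = y) ∨ (a = y ∧ b = z) ∨
    (a = z ∧ b = s) ∨ (a = y ∧ b = s) ∨ (a = s ∧ b = z) ∨ (a = s ∧ b = y) ∨ (a = t ∧ b = z) ∨
    (a = t ∧ b = y) := by
  unfold cst
  simp only [List.mem_cons, Prod.mk.injEq, List.not_mem_nil, or_false]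

omit [DecidableEq α] in
theorem Inst.distinct (h : Inst W P1 P2 s z y t) : s ≠ z ∧ s ≠ y ∧ z ≠ y ∧ s ∉ W ∧ z ∉ W ∧
    y ∉ W := by
  have := h.hW
  simp only [List.nodup_cons, List.mem_cons, not_or] at this
  tauto

omit [DecidableEq α] in
theorem isDigraph (h : Inst W P1 P2 s z y t) :
    IsDigraph (s :: z :: y :: W) (arcs W P1 P2 s z y t) := by
  obtain ⟨d1, d2, d3, d4, d5, d6⟩ := h.distinct
  have hWn : W.Nodup := by
    have := h.hW
    simp only [List.nodup_cons] at this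
    tauto
  have ht := h.ht
  have tz : t ≠ z := fun e => d5 (e ▸ ht)
  have ty : t ≠ y := fun e => d6 (e ▸ ht)
  have ts : t ≠ s := fun e => d4 (e ▸ ht)
  refine ⟨h.hW, ?_, ?_⟩
  · unfold arcs
    rw [List.nodup_append, List.nodup_append, List.nodup_append]
    refine ⟨⟨⟨hWn.map ?_, hWn.map ?_, ?_⟩, hWn.map ?_, ?_⟩, ?_, ?_⟩
    · intro a b hab; simp only [Prod.mk.injEq] at hab; exact hab.2
    · intro a b hab; simp only [Prod.mk.injEq] at hab; exact hab.2
    · rintro e he e' he' rfl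
      obtain ⟨w, hw, rfl⟩ := List.mem_map.1 he
      obtain ⟨w', hw', hww⟩ := List.mem_map.1 he'
      simp only [Prod.mk.injEq] at hww
      obtain ⟨h1, rfl⟩ := hww
      exact h.hne _ hw h1.symm
    · intro a b hab; simp only [Prod.mk.injEq] at hab; exact hab.1
    · rintro e he e' he' rfl
      obtain ⟨w', hw', rfl⟩ := List.mem_map.1 he'
      rcases List.mem_append.1 he with he | he
      · obtain ⟨w, hw, hww⟩ := List.mem_map.1 he
        simp only [Prod.mk.injEq] at hww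
        exact d4 (hww.2 ▸ hw)
      · obtain ⟨w, hw, hww⟩ := List.mem_map.1 he
        simp only [Prod.mk.injEq] at hww
        exact d4 (hww.2 ▸ hw)
    · unfold cst
      simp only [List.nodup_cons, List.mem_cons, Prod.mk.injEq, List.not_mem_nil, or_false,
        not_or, List.nodup_nil, and_true, not_false_eq_true]
      tauto
    · rintro ⟨a, b⟩ he e' he' rfl
      rw [mem_cst] at he'
      rcases List.mem_append.1 he with he | he
      · have hb : b ∈ W := by
          rcases List.mem_append.1 he with he | he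
          · obtain ⟨w, hw, hww⟩ := List.mem_map.1 he
            simp only [Prod.mk.injEq] at hww
            exact hww.2 ▸ hw
          · obtain ⟨w, hw, hww⟩ := List.mem_map.1 he
            simp only [Prod.mk.injEq] at hww
            exact hww.2 ▸ hw
        rcases he' with ⟨-, rfl⟩ | ⟨-, rfl⟩ | ⟨-, rfl⟩ | ⟨-, rfl⟩ | ⟨-, rfl⟩ | ⟨-, rfl⟩ |
          ⟨-, rfl⟩ | ⟨-, rfl⟩ <;> contradiction
      · obtain ⟨w, hw, hww⟩ := List.mem_map.1 he
        simp only [Prod.mk.injEq] at hww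
        obtain ⟨rfl, rfl⟩ := hww
        rcases he' with ⟨h1, h2⟩ | ⟨h1, h2⟩ | ⟨h1, h2⟩ | ⟨h1, h2⟩ | ⟨h1, h2⟩ | ⟨h1, h2⟩ |
          ⟨h1, h2⟩ | ⟨h1, h2⟩
        · exact d2 h2
        · exact d1 h2
        · exact d5 (h1 ▸ hw)
        · exact d6 (h1 ▸ hw)
        · exact d1 h2
        · exact d2 h2
        · exact d1 h2
        · exact d2 h2
  · rintro ⟨a, b⟩ hab
    rw [mem_arcs, mem_cst] at hab
    have hs : s ∈ s :: z :: y :: W := by simp
    have hz : z ∈ s :: z :: y :: W := by simp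
    have hy : y ∈ s :: z :: y :: W := by simp
    have hw : ∀ w ∈ W, w ∈ s :: z :: y :: W := fun w hw => by simp [hw]
    have hsw : ∀ w, w = s ∨ w ∈ W → w ∈ s :: z :: y :: W := by
      rintro w (rfl | h)
      · exact hs
      · exact hw w h
    rcases hab with ⟨hb, rfl | rfl⟩ | ⟨ha, rfl⟩ | hc
    · exact ⟨hsw _ (h.hP1 b hb), hw b hb, h.hl1 b hb⟩
    · exact ⟨hsw _ (h.hP2 b hb), hw b hb, h.hl2 b hb⟩
    · exact ⟨hw a ha, hs, fun e => d4 ((show a = b from e) ▸ ha)⟩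
    · rcases hc with ⟨rfl, rfl⟩ | ⟨rfl, rfl⟩ | ⟨rfl, rfl⟩ | ⟨rfl, rfl⟩ | ⟨rfl, rfl⟩ |
        ⟨rfl, rfl⟩ | ⟨rfl, rfl⟩ | ⟨rfl, rfl⟩
      · exact ⟨hz, hy, d3⟩
      · exact ⟨hy, hz, d3.symm⟩
      · exact ⟨hz, hs, d1.symm⟩
      · exact ⟨hy, hs, d2.symm⟩
      · exact ⟨hs, hz, d1⟩
      · exact ⟨hs, hy, d2⟩
      · exact ⟨hw _ ht, hz, tz⟩
      · exact ⟨hw _ ht, hy, ty⟩

/-- A Hamiltonian path, as it is constructed. -/
def HPS (W : List α) (P1 P2 : α → α) (s t : α) : Prop :=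
  ∃ π : α → α, (∀ w ∈ W, π w = P1 w ∨ π w = P2 w) ∧
    (∀ w ∈ W, Relation.ReflTransGen (fun a b => b ∈ W ∧ π b = a) s w) ∧
    (∀ w ∈ W, Relation.ReflTransGen (fun a b => b ∈ W ∧ π b = a) w t)

/-- A Hamiltonian path, as it is used. -/
def HPW (W : List α) (P1 P2 : α → α) (s t : α) : Prop :=
  ∃ π : α → α, (∀ w ∈ W, π w = P1 w ∨ π w = P2 w) ∧ (∀ w ∈ W, π w ≠ t) ∧
    (∀ w ∈ W, ∀ w' ∈ W, π w = π w' → w = w') ∧
    (∀ v, (v = s ∨ v ∈ W) → v ≠ t → ∃ w ∈ W, π w = v) ∧
    ∀ S : α → Prop, (∀ w, S w → w ∈ W ∧ S (π w)) → ∀ w, ¬ S w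

theorem splits_of_hps (h : Inst W P1 P2 s z y t) (hp : HPS W P1 P2 s t) :
    Splits (s :: z :: y :: W) (arcs W P1 P2 s z y t) := by
  obtain ⟨d1, d2, d3, d4, d5, d6⟩ := h.distinct
  obtain ⟨π, h1, h2, h3⟩ := hp
  have ht := h.ht
  have tz : t ≠ z := fun e => d5 (e ▸ ht)
  have ty : t ≠ y := fun e => d6 (e ▸ ht)
  have ts : t ≠ s := fun e => d4 (e ▸ ht)
  let A₂ : Set (α × α) := {e | (e.2 ∈ W ∧ π e.2 = e.1) ∨ e = (t, z) ∨ e = (z, y) ∨ e = (y, s)}
  let A₁ : Set (α × α) := {e | e ∈ arcs W P1 P2 s z y t ∧ e ∉ A₂}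
  have memA₂ : ∀ a b, (a, b) ∈ A₂ ↔ (b ∈ W ∧ π b = a) ∨ (a = t ∧ b = z) ∨ (a = z ∧ b = y) ∨
      (a = y ∧ b = s) := by
    intro a b
    simp only [A₂, Set.mem_ofPred_eq, Prod.mk.injEq]
  have memA₁ : ∀ a b, (a, b) ∈ A₁ ↔ (a, b) ∈ arcs W P1 P2 s z y t ∧ (a, b) ∉ A₂ :=
    fun a b => Iff.rfl
  refine ⟨A₁, A₂, fun e he => he.1, ?_, ?_, ⟨by simp, ?_⟩, ?_⟩
  · rintro ⟨a, b⟩ he
    rw [memA₂] at he
    rw [mem_arcs, mem_cst]
    rcases he with ⟨hb, rfl⟩ | he | he | he
    · exact Or.inl ⟨hb, h1 b hb⟩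
    · tauto
    · tauto
    · tauto
  · rw [Set.disjoint_left]
    exact fun e he => he.2
  · -- the antistrong part
    have hw : ∀ w ∈ W, (bip A₁).Reachable (Sum.inl w) (Sum.inr s) := by
      intro w hw
      refine (bip_lr.2 ?_).reachable
      rw [memA₁, mem_arcs, memA₂]
      refine ⟨Or.inr (Or.inl ⟨hw, rfl⟩), ?_⟩
      rintro (⟨h, -⟩ | ⟨-, h⟩ | ⟨-, h⟩ | ⟨h, -⟩)
      · exact d4 h
      · exact d1 h
      · exact d2 h
      · exact d6 (h ▸ hw)
    have hz : (bip A₁).Reachable (Sum.inl z) (Sum.inr s) := by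
      refine (bip_lr.2 ?_).reachable
      rw [memA₁, mem_arcs, mem_cst, memA₂]
      refine ⟨by tauto, ?_⟩
      rintro (⟨h, -⟩ | ⟨-, h⟩ | ⟨-, h⟩ | ⟨h, -⟩)
      · exact d4 h
      · exact d1 h
      · exact d2 h
      · exact d3 h
    have hty : (bip A₁).Reachable (Sum.inl t) (Sum.inr y) := by
      refine (bip_lr.2 ?_).reachable
      rw [memA₁, mem_arcs, mem_cst, memA₂]
      refine ⟨by tauto, ?_⟩
      rintro (⟨h, -⟩ | ⟨-, h⟩ | ⟨h, -⟩ | ⟨h, -⟩)
      · exact d6 h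
      · exact d3 h.symm
      · exact tz h
      · exact ty h
    have hsy : (bip A₁).Reachable (Sum.inl s) (Sum.inr y) := by
      refine (bip_lr.2 ?_).reachable
      rw [memA₁, mem_arcs, mem_cst, memA₂]
      refine ⟨by tauto, ?_⟩
      rintro (⟨h, -⟩ | ⟨h, -⟩ | ⟨h, -⟩ | ⟨h, -⟩)
      · exact d6 h
      · exact ts h.symm
      · exact d1 h
      · exact d2 h
    have hsz : (bip A₁).Reachable (Sum.inl s) (Sum.inr z) := by
      refine (bip_lr.2 ?_).reachable
      rw [memA₁, mem_arcs, mem_cst, memA₂]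
      refine ⟨by tauto, ?_⟩
      rintro (⟨h, -⟩ | ⟨h, -⟩ | ⟨h, -⟩ | ⟨h, -⟩)
      · exact d5 h
      · exact ts h.symm
      · exact d1 h
      · exact d2 h
    have hyz : (bip A₁).Reachable (Sum.inl y) (Sum.inr z) := by
      refine (bip_lr.2 ?_).reachable
      rw [memA₁, mem_arcs, mem_cst, memA₂]
      refine ⟨by tauto, ?_⟩
      rintro (⟨h, -⟩ | ⟨h, -⟩ | ⟨h, -⟩ | ⟨-, h⟩)
      · exact d5 h
      · exact ty h.symm
      · exact d3 h.symm
      · exact d1 h.symm
    have hry : (bip A₁).Reachable (Sum.inr y) (Sum.inr s) := hty.symm.trans (hw t ht)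
    have hls : (bip A₁).Reachable (Sum.inl s) (Sum.inr s) := hsy.trans hry
    have hrz : (bip A₁).Reachable (Sum.inr z) (Sum.inr s) := hsz.symm.trans hls
    have hly : (bip A₁).Reachable (Sum.inl y) (Sum.inr s) := hyz.trans hrz
    have hl : ∀ v, (v = s ∨ v ∈ W) → (bip A₁).Reachable (Sum.inl v) (Sum.inr s) := by
      rintro v (rfl | h)
      · exact hls
      · exact hw v h
    have hrw : ∀ w ∈ W, (bip A₁).Reachable (Sum.inr w) (Sum.inr s) := by
      intro w hw'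
      have key : ∀ o, (o = P1 w ∨ o = P2 w) → o ≠ π w →
          (bip A₁).Reachable (Sum.inl o) (Sum.inr w) := by
        intro o ho hne
        refine (bip_lr.2 ?_).reachable
        rw [memA₁, mem_arcs, mem_cst, memA₂]
        refine ⟨Or.inl ⟨hw', ho⟩, ?_⟩
        rintro (⟨-, h⟩ | ⟨-, h⟩ | ⟨-, h⟩ | ⟨-, h⟩)
        · exact hne h.symm
        · exact d5 (h ▸ hw')
        · exact d6 (h ▸ hw')
        · exact d4 (h ▸ hw')
      rcases h1 w hw' with e | e
      · exact (key _ (Or.inr rfl) (by rw [e]; exact (h.hne w hw').symm)).symm.trans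
          (hl _ (h.hP2 w hw'))
      · exact (key _ (Or.inl rfl) (by rw [e]; exact h.hne w hw')).symm.trans
          (hl _ (h.hP1 w hw'))
    have hL : ∀ v ∈ s :: z :: y :: W, (bip A₁).Reachable (Sum.inl v) (Sum.inr s) := by
      intro v hv
      simp only [List.mem_cons] at hv
      rcases hv with rfl | rfl | rfl | hv
      · exact hls
      · exact hz
      · exact hly
      · exact hw v hv
    have hR : ∀ v ∈ s :: z :: y :: W, (bip A₁).Reachable (Sum.inr v) (Sum.inr s) := by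
      intro v hv
      simp only [List.mem_cons] at hv
      rcases hv with rfl | rfl | rfl | hv
      · exact SimpleGraph.Reachable.refl _
      · exact hrz
      · exact hry
      · exact hrw v hv
    intro a ha b hb _
    exact trail_of_reach ((hL a ha).trans (hR b hb).symm)
  · -- the strong part
    have hmono : ∀ a b, Relation.ReflTransGen (fun a b => b ∈ W ∧ π b = a) a b →
        Relation.ReflTransGen (fun a b => (a, b) ∈ A₂) a b := by
      intro a b hab
      induction hab with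
      | refl => exact Relation.ReflTransGen.refl
      | tail _ huv ih => exact ih.tail ((memA₂ _ _).2 (Or.inl huv))
    have t1 : (t, z) ∈ A₂ := (memA₂ _ _).2 (by tauto)
    have t2 : (z, y) ∈ A₂ := (memA₂ _ _).2 (by tauto)
    have t3 : (y, s) ∈ A₂ := (memA₂ _ _).2 (by tauto)
    have f1 : Relation.ReflTransGen (fun a b => (a, b) ∈ A₂) s t := hmono _ _ (h2 t ht)
    have f2 := f1.tail t1
    have f3 := f2.tail t2
    have g3 : Relation.ReflTransGen (fun a b => (a, b) ∈ A₂) y s := Relation.ReflTransGen.single t3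
    have g2 : Relation.ReflTransGen (fun a b => (a, b) ∈ A₂) z s :=
      Relation.ReflTransGen.head t2 g3
    have g1 : Relation.ReflTransGen (fun a b => (a, b) ∈ A₂) t s :=
      Relation.ReflTransGen.head t1 g2
    have from_s : ∀ v ∈ s :: z :: y :: W, Relation.ReflTransGen (fun a b => (a, b) ∈ A₂) s v := by
      intro v hv
      simp only [List.mem_cons] at hv
      rcases hv with rfl | rfl | rfl | hv
      · exact Relation.ReflTransGen.refl
      · exact f2
      · exact f3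
      · exact hmono _ _ (h2 v hv)
    have to_s : ∀ v ∈ s :: z :: y :: W, Relation.ReflTransGen (fun a b => (a, b) ∈ A₂) v s := by
      intro v hv
      simp only [List.mem_cons] at hv
      rcases hv with rfl | rfl | rfl | hv
      · exact Relation.ReflTransGen.refl
      · exact g2
      · exact g3
      · exact (hmono _ _ (h3 v hv)).trans g1
    exact fun a ha b hb => (to_s a ha).trans (from_s b hb)

theorem hpw_of_splits (h : Inst W P1 P2 s z y t)
    (hs : Splits (s :: z :: y :: W) (arcs W P1 P2 s z y t)) : HPW W P1 P2 s t := by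
  classical
  obtain ⟨d1, d2, d3, d4, d5, d6⟩ := h.distinct
  have ht := h.ht
  have tz : t ≠ z := fun e => d5 (e ▸ ht)
  have ty : t ≠ y := fun e => d6 (e ▸ ht)
  have ts : t ≠ s := fun e => d4 (e ▸ ht)
  obtain ⟨A₁, A₂, hA₁, hA₂, hdis, hanti, hstr⟩ := hs
  obtain ⟨hVn, hAn, hAV⟩ := isDigraph h
  set V := s :: z :: y :: W with hV
  set A := arcs W P1 P2 s z y t with hA
  have hAlen : A.length = 3 * W.length + 8 := by
    rw [hA]
    unfold arcs cst
    simp only [List.length_append, List.length_map, List.length_cons, List.length_nil]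
    omega
  have hVlen : V.length = W.length + 3 := by rw [hV]; simp
  let B1 := A.toFinset.filter (fun e => e ∈ A₁)
  let B2 := A.toFinset.filter (fun e => e ∈ A₂)
  have hB1 : ∀ e ∈ A₁, e ∈ B1 := fun e he => Finset.mem_filter.2 ⟨List.mem_toFinset.2 (hA₁ e he), he⟩
  have hB2 : ∀ e, e ∈ A₂ ↔ e ∈ B2 := fun e =>
    ⟨fun he => Finset.mem_filter.2 ⟨List.mem_toFinset.2 (hA₂ e he), he⟩,
      fun he => (Finset.mem_filter.1 he).2⟩
  have hc1 : 2 * V.length ≤ B1.card + 1 :=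
    antistrong_card hVn B1 hB1 (fun e he => ⟨(hAV e (hA₁ e he)).1, (hAV e (hA₁ e he)).2.1⟩) hanti
  have hd : Disjoint B1 B2 := by
    rw [Finset.disjoint_left]
    intro e he he'
    exact Set.disjoint_left.1 hdis (Finset.mem_filter.1 he).2 (Finset.mem_filter.1 he').2
  have hc2 : B1.card + B2.card ≤ A.length := by
    rw [← Finset.card_union_of_disjoint hd, ← List.toFinset_card_of_nodup hAn]
    apply Finset.card_le_card
    intro e he
    rcases Finset.mem_union.1 he with he | he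
    · exact (Finset.mem_filter.1 he).1
    · exact (Finset.mem_filter.1 he).1
  have hc3 : B2.card ≤ V.toFinset.card := by
    rw [List.toFinset_card_of_nodup hVn]
    omega
  have hsV : s ∈ V := by rw [hV]; simp
  have hzV : z ∈ V := by rw [hV]; simp
  have hyV : y ∈ V := by rw [hV]; simp
  have htV : t ∈ V := by rw [hV]; simp [ht]
  have hin : ∀ v ∈ V, ∃ a, (a, v) ∈ A₂ := by
    intro v hv
    obtain ⟨x, hx, hxv⟩ : ∃ x ∈ V, x ≠ v := by
      by_cases e : v = s
      · exact ⟨z, hzV, by rw [e]; exact d1.symm⟩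
      · exact ⟨s, hsV, fun h => e h.symm⟩
    rcases Relation.ReflTransGen.cases_tail (hstr x hx v hv) with h1 | ⟨c, -, h1⟩
    · exact absurd h1.symm hxv
    · exact ⟨c, h1⟩
  have hout : ∀ v ∈ V, ∃ a, (v, a) ∈ A₂ := by
    intro v hv
    obtain ⟨x, hx, hxv⟩ : ∃ x ∈ V, x ≠ v := by
      by_cases e : v = s
      · exact ⟨z, hzV, by rw [e]; exact d1.symm⟩
      · exact ⟨s, hsV, fun h => e h.symm⟩
    rcases Relation.ReflTransGen.cases_head (hstr v hv x hx) with h1 | ⟨c, h1, -⟩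
    · exact absurd h1.symm hxv
    · exact ⟨c, h1⟩
  have hui : ∀ a b v, (a, v) ∈ A₂ → (b, v) ∈ A₂ → a = b := by
    have himg : V.toFinset ⊆ B2.image Prod.snd := by
      intro v hv
      obtain ⟨a, ha⟩ := hin v (List.mem_toFinset.1 hv)
      exact Finset.mem_image.2 ⟨(a, v), (hB2 _).1 ha, rfl⟩
    have h1 := Finset.card_le_card himg
    have h2 : (B2.image Prod.snd).card = B2.card :=
      le_antisymm Finset.card_image_le (hc3.trans h1)
    have h3 := Finset.card_image_iff.1 h2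
    intro a b v ha hb
    have := h3 (Finset.mem_coe.2 ((hB2 _).1 ha)) (Finset.mem_coe.2 ((hB2 _).1 hb)) rfl
    exact congrArg Prod.fst this
  have huo : ∀ a b v, (v, a) ∈ A₂ → (v, b) ∈ A₂ → a = b := by
    have himg : V.toFinset ⊆ B2.image Prod.fst := by
      intro v hv
      obtain ⟨a, ha⟩ := hout v (List.mem_toFinset.1 hv)
      exact Finset.mem_image.2 ⟨(v, a), (hB2 _).1 ha, rfl⟩
    have h1 := Finset.card_le_card himg
    have h2 : (B2.image Prod.fst).card = B2.card :=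
      le_antisymm Finset.card_image_le (hc3.trans h1)
    have h3 := Finset.card_image_iff.1 h2
    intro a b v ha hb
    have := h3 (Finset.mem_coe.2 ((hB2 _).1 ha)) (Finset.mem_coe.2 ((hB2 _).1 hb)) rfl
    exact congrArg Prod.snd this
  have hmem : ∀ a b, (a, b) ∈ A₂ → (b ∈ W ∧ (a = P1 b ∨ a = P2 b)) ∨ (a ∈ W ∧ b = s) ∨
      (a, b) ∈ cst s z y t := fun a b hab => mem_arcs.1 (hA₂ _ hab)
  -- closed sets of vertices
  have hclosed : ∀ S : α → Prop, (∀ a b, S a → (a, b) ∈ A₂ → S b) → ∀ u ∈ V, ∀ v ∈ V,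
      S u → S v := by
    intro S hS u hu v hv hSu
    have := hstr u hu v hv
    induction this with
    | refl => exact hSu
    | tail hab hbc ih =>
      rename_i b c
      have hb : b ∈ V := (hAV _ (hA₂ _ hbc)).1
      exact hS _ _ (ih hb) hbc
  have hPs : ∀ b ∈ W, ∀ a, (a = P1 b ∨ a = P2 b) → a = s ∨ a ∈ W := by
    rintro b hb a (rfl | rfl)
    · exact h.hP1 b hb
    · exact h.hP2 b hb
  have zout : ∀ b, (z, b) ∈ A₂ → b = y ∨ b = s := by
    intro b hb
    rcases hmem _ _ hb with ⟨h1, h2⟩ | ⟨h1, -⟩ | h1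
    · rcases hPs b h1 z h2 with h3 | h3
      · exact absurd h3.symm d1
      · exact absurd h3 d5
    · exact absurd h1 d5
    · rw [mem_cst] at h1
      rcases h1 with ⟨-, h1⟩ | ⟨h1, -⟩ | ⟨-, h1⟩ | ⟨h1, -⟩ | ⟨h1, -⟩ | ⟨h1, -⟩ | ⟨h1, -⟩ | ⟨h1, -⟩
      · exact Or.inl h1
      · exact absurd h1 d3
      · exact Or.inr h1
      · exact absurd h1 d3
      · exact absurd h1.symm d1
      · exact absurd h1.symm d1
      · exact absurd h1.symm tz
      · exact absurd h1.symm tz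
  have yout : ∀ b, (y, b) ∈ A₂ → b = z ∨ b = s := by
    intro b hb
    rcases hmem _ _ hb with ⟨h1, h2⟩ | ⟨h1, -⟩ | h1
    · rcases hPs b h1 y h2 with h3 | h3
      · exact absurd h3.symm d2
      · exact absurd h3 d6
    · exact absurd h1 d6
    · rw [mem_cst] at h1
      rcases h1 with ⟨h1, -⟩ | ⟨-, h1⟩ | ⟨h1, -⟩ | ⟨-, h1⟩ | ⟨h1, -⟩ | ⟨h1, -⟩ | ⟨h1, -⟩ | ⟨h1, -⟩
      · exact absurd h1.symm d3
      · exact Or.inl h1
      · exact absurd h1.symm d3
      · exact Or.inr h1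
      · exact absurd h1.symm d2
      · exact absurd h1.symm d2
      · exact absurd h1.symm ty
      · exact absurd h1.symm ty
  have zin : ∀ a, (a, z) ∈ A₂ → a = y ∨ a = s ∨ a = t := by
    intro a ha
    rcases hmem _ _ ha with ⟨h1, -⟩ | ⟨-, h1⟩ | h1
    · exact absurd h1 d5
    · exact absurd h1.symm d1
    · rw [mem_cst] at h1
      rcases h1 with ⟨-, h1⟩ | ⟨h1, -⟩ | ⟨-, h1⟩ | ⟨h1, h2⟩ | ⟨h1, -⟩ | ⟨h1, -⟩ | ⟨h1, -⟩ | ⟨h1, -⟩
      · exact absurd h1 d3
      · exact Or.inl h1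
      · exact absurd h1.symm d1
      · exact Or.inl h1
      · exact Or.inr (Or.inl h1)
      · exact Or.inr (Or.inl h1)
      · exact Or.inr (Or.inr h1)
      · exact Or.inr (Or.inr h1)
  have yin : ∀ a, (a, y) ∈ A₂ → a = z ∨ a = s ∨ a = t := by
    intro a ha
    rcases hmem _ _ ha with ⟨h1, -⟩ | ⟨-, h1⟩ | h1
    · exact absurd h1 d6
    · exact absurd h1.symm d2
    · rw [mem_cst] at h1
      rcases h1 with ⟨h1, -⟩ | ⟨-, h1⟩ | ⟨h1, -⟩ | ⟨-, h1⟩ | ⟨h1, -⟩ | ⟨h1, -⟩ | ⟨h1, -⟩ | ⟨h1, -⟩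
      · exact Or.inl h1
      · exact absurd h1.symm d3
      · exact Or.inl h1
      · exact absurd h1.symm d2
      · exact Or.inr (Or.inl h1)
      · exact Or.inr (Or.inl h1)
      · exact Or.inr (Or.inr h1)
      · exact Or.inr (Or.inr h1)
  have hmain : ((z, y) ∈ A₂ ∧ (y, s) ∈ A₂ ∧ (t, z) ∈ A₂) ∨
      ((y, z) ∈ A₂ ∧ (z, s) ∈ A₂ ∧ (t, y) ∈ A₂) := by
    obtain ⟨b, hb⟩ := hout z hzV
    obtain ⟨c, hc⟩ := hout y hyV
    rcases zout b hb with rfl | rfl <;> rcases yout c hc with rfl | rfl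
    · exfalso
      have := hclosed (fun v => v = c ∨ v = b) (by
        rintro a e (rfl | rfl) he
        · exact Or.inr (huo _ _ _ he hb)
        · exact Or.inl (huo _ _ _ he hc)) c hzV s hsV (Or.inl rfl)
      rcases this with h1 | h1
      · exact d1 h1
      · exact d2 h1
    · left
      refine ⟨hb, hc, ?_⟩
      obtain ⟨a, ha⟩ := hin z hzV
      rcases zin a ha with rfl | rfl | rfl
      · exact absurd (huo _ _ _ ha hc) d1.symm
      · exfalso
        have := hclosed (fun v => v = a ∨ v = z ∨ v = b) (by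
          rintro u e (rfl | rfl | rfl) he
          · exact Or.inr (Or.inl (huo _ _ _ he ha))
          · exact Or.inr (Or.inr (huo _ _ _ he hb))
          · exact Or.inl (huo _ _ _ he hc)) a hsV t htV (Or.inl rfl)
        rcases this with h1 | h1 | h1
        · exact ts h1
        · exact tz h1
        · exact ty h1
      · exact ha
    · right
      refine ⟨hc, hb, ?_⟩
      obtain ⟨a, ha⟩ := hin y hyV
      rcases yin a ha with rfl | rfl | rfl
      · exact absurd (huo _ _ _ ha hb) d2.symm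
      · exfalso
        have := hclosed (fun v => v = a ∨ v = c ∨ v = y) (by
          rintro u e (rfl | rfl | rfl) he
          · exact Or.inr (Or.inr (huo _ _ _ he ha))
          · exact Or.inl (huo _ _ _ he hb)
          · exact Or.inr (Or.inl (huo _ _ _ he hc))) a hsV t htV (Or.inl rfl)
        rcases this with h1 | h1 | h1
        · exact ts h1
        · exact tz h1
        · exact ty h1
      · exact ha
    · exact absurd (hui _ _ _ hb hc) d3
  obtain ⟨u, hu, htu⟩ : ∃ u, (u = z ∨ u = y) ∧ (t, u) ∈ A₂ := by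
    rcases hmain with ⟨-, -, h1⟩ | ⟨-, -, h1⟩
    · exact ⟨z, Or.inl rfl, h1⟩
    · exact ⟨y, Or.inr rfl, h1⟩
  obtain ⟨u', hu', hus⟩ : ∃ u, (u = z ∨ u = y) ∧ (u, s) ∈ A₂ := by
    rcases hmain with ⟨-, h1, -⟩ | ⟨-, h1, -⟩
    · exact ⟨y, Or.inr rfl, h1⟩
    · exact ⟨z, Or.inl rfl, h1⟩
  have hsz : (s, z) ∉ A₂ := by
    intro h1
    rcases hmain with ⟨-, -, h2⟩ | ⟨h2, -, -⟩
    · exact ts (hui _ _ _ h2 h1)
    · exact d2 (hui _ _ _ h1 h2)
  have hsy : (s, y) ∉ A₂ := by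
    intro h1
    rcases hmain with ⟨h2, -, -⟩ | ⟨-, -, h2⟩
    · exact d1 (hui _ _ _ h1 h2)
    · exact ts (hui _ _ _ h2 h1)
  have hWV : ∀ w ∈ W, w ∈ V := fun w hw => by rw [hV]; simp [hw]
  let π : α → α := fun w => if hw : w ∈ V then (hin w hw).choose else w
  have hπ : ∀ w ∈ V, (π w, w) ∈ A₂ := by
    intro w hw
    have : π w = (hin w hw).choose := dif_pos hw
    rw [this]
    exact (hin w hw).choose_spec
  refine ⟨π, ?_, ?_, ?_, ?_, ?_⟩
  · intro w hw
    rcases hmem _ _ (hπ w (hWV w hw)) with ⟨-, h1⟩ | ⟨-, h1⟩ | h1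
    · exact h1
    · exact absurd (h1 ▸ hw) d4
    · rw [mem_cst] at h1
      exfalso
      rcases h1 with ⟨-, h1⟩ | ⟨-, h1⟩ | ⟨-, h1⟩ | ⟨-, h1⟩ | ⟨-, h1⟩ | ⟨-, h1⟩ | ⟨-, h1⟩ | ⟨-, h1⟩
      · exact d6 (h1 ▸ hw)
      · exact d5 (h1 ▸ hw)
      · exact d4 (h1 ▸ hw)
      · exact d4 (h1 ▸ hw)
      · exact d5 (h1 ▸ hw)
      · exact d6 (h1 ▸ hw)
      · exact d5 (h1 ▸ hw)
      · exact d6 (h1 ▸ hw)
  · intro w hw e
    have h1 := hπ w (hWV w hw)
    rw [e] at h1
    have h2 := huo _ _ _ h1 htu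
    rcases hu with rfl | rfl
    · exact d5 (h2 ▸ hw)
    · exact d6 (h2 ▸ hw)
  · intro w hw w' hw' e
    have h1 := hπ w (hWV w hw)
    have h2 := hπ w' (hWV w' hw')
    rw [e] at h1
    exact huo _ _ _ h1 h2
  · intro v hv hvt
    have hvV : v ∈ V := by
      rcases hv with rfl | hv
      · exact hsV
      · exact hWV v hv
    obtain ⟨b, hb⟩ := hout v hvV
    rcases hmem _ _ hb with ⟨h1, -⟩ | ⟨h1, rfl⟩ | h1
    · exact ⟨b, h1, hui _ _ _ (hπ b (hWV b h1)) hb⟩
    · exfalso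
      have h2 := hui _ _ _ hb hus
      rcases hu' with rfl | rfl
      · exact d5 (h2 ▸ h1)
      · exact d6 (h2 ▸ h1)
    · exfalso
      have hvz : v ≠ z := by
        rintro rfl
        rcases hv with h2 | h2
        · exact d1 h2.symm
        · exact d5 h2
      have hvy : v ≠ y := by
        rintro rfl
        rcases hv with h2 | h2
        · exact d2 h2.symm
        · exact d6 h2
      rw [mem_cst] at h1
      rcases h1 with ⟨h1, -⟩ | ⟨h1, -⟩ | ⟨h1, -⟩ | ⟨h1, -⟩ | ⟨rfl, rfl⟩ | ⟨rfl, rfl⟩ | ⟨h1, -⟩ | ⟨h1, -⟩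
      · exact hvz h1
      · exact hvy h1
      · exact hvz h1
      · exact hvy h1
      · exact hsz hb
      · exact hsy hb
      · exact hvt h1
      · exact hvt h1
  · intro S hS w hw
    have := hstr s hsV w (hWV w (hS w hw).1)
    have key : ∀ v, Relation.ReflTransGen (fun a b => (a, b) ∈ A₂) s v → ¬ S v := by
      intro v hv
      induction hv with
      | refl => exact fun h1 => d4 (hS _ h1).1
      | tail _ hbc ih =>
        intro h1
        obtain ⟨h2, h3⟩ := hS _ h1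
        have h4 := hui _ _ _ (hπ _ (hWV _ h2)) hbc
        exact ih (h4 ▸ h3)
    exact key w this hw

end

end Pool.Agent.X249.AS
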